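import Pool.Agent.Helper60.UN.Defs
import Pool.Agent.Helper60.OG.Cliff

/-!
Project GUM (MP_0bd1d1_al): unitary groups, totally isotropic subspaces of every dimension.
Definitions.
-/

namespace GUM

open Module OG

variable {k F : Type*} [Field k] [Field F] [Algebra k F]

/-- Hermitian forms. -/
structure HForm (σ : F ≃ₐ[k] F) (X : Type*) [AddCommGroup X] [Module F X] where
  /-- the form -/
  f : X → X → F
  add : ∀ x y z, f (x + y) z = f x z + f y z
  smul : ∀ (c : F) x z, f (c • x) z = c * f x z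
  sym : ∀ x y, f y x = σ (f x y)

variable {X : Type*} [AddCommGroup X] [Module F X] {σ : F ≃ₐ[k] F}

namespace HForm

variable (B : HForm σ X)

theorem add_r (x y z : X) : B.f x (y + z) = B.f x y + B.f x z := by
  rw [B.sym (y + z) x, B.add, map_add, ← B.sym, ← B.sym]

theorem smul_r (c : F) (x y : X) : B.f x (c • y) = σ c * B.f x y := by
  rw [B.sym (c • y) x, B.smul, map_mul, ← B.sym]

/-- The linear functional `x ↦ B(x, p)`. -/
def l (p : X) : X →ₗ[F] F where
  toFun x := B.f x p
  map_add' x y := B.add x y p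
  map_smul' c x := B.smul c x p

theorem l_apply (p x : X) : B.l p x = B.f x p := rfl

theorem zero_l (y : X) : B.f 0 y = 0 := (B.l y).map_zero

theorem neg_l (x y : X) : B.f (-x) y = -B.f x y := (B.l y).map_neg x

theorem sub_l (x y z : X) : B.f (x - y) z = B.f x z - B.f y z := (B.l z).map_sub x y

theorem zero_r (x : X) : B.f x 0 = 0 := by
  rw [B.sym 0 x, B.zero_l, map_zero]

theorem neg_r (x y : X) : B.f x (-y) = -B.f x y := by
  rw [B.sym (-y) x, B.neg_l, map_neg, ← B.sym]

theorem sub_r (x y z : X) : B.f x (y - z) = B.f x y - B.f x z := by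
  rw [B.sym (y - z) x, B.sub_l, map_sub, ← B.sym, ← B.sym]

theorem swap0 {x y : X} (h : B.f x y = 0) : B.f y x = 0 := by
  rw [B.sym x y, h, map_zero]

theorem swap1 {x y : X} (h : B.f x y = 1) : B.f y x = 1 := by
  rw [B.sym x y, h, map_one]

end HForm

/-- No nonzero vector of `Y` is orthogonal to `Y`. -/
def ND (B : HForm σ X) (Y : Submodule F X) : Prop :=
  ∀ x ∈ Y, x ≠ 0 → ∃ y ∈ Y, B.f x y ≠ 0

/-- The isometries moving vectors only inside `Y` and fixing the orthogonal space of `Y`. -/
def Gr (B : HForm σ X) (Y : Submodule F X) : Set (X ≃ₗ[F] X) :=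
  {g | (∀ x y, B.f (g x) (g y) = B.f x y) ∧ (∀ x, g x - x ∈ Y) ∧
    ∀ x, (∀ y ∈ Y, B.f x y = 0) → g x = x}

/-- Totally isotropic `j`-subspaces of `Y`. -/
def Sk (B : HForm σ X) (Y : Submodule F X) (j : ℕ) : Set (Submodule F X) :=
  {W | W ≤ Y ∧ finrank F W = j ∧ ∀ x ∈ W, ∀ y ∈ W, B.f x y = 0}

/-- `Y` intersected with the orthogonal space of `p` and `p'`. -/
def pp (B : HForm σ X) (Y : Submodule F X) (p p' : X) : Submodule F X :=
  Y ⊓ (LinearMap.ker (B.l p) ⊓ LinearMap.ker (B.l p'))

theorem mem_pp {B : HForm σ X} {Y : Submodule F X} {p p' x : X} :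
    x ∈ pp B Y p p' ↔ x ∈ Y ∧ B.f x p = 0 ∧ B.f x p' = 0 := Iff.rfl

/-- Hyperbolic pairs in `Y`. -/
structure HP (B : HForm σ X) (Y : Submodule F X) (p p' : X) : Prop where
  m1 : p ∈ Y
  m2 : p' ∈ Y
  q1 : B.f p p = 0
  q2 : B.f p' p' = 0
  b : B.f p p' = 1

/-- Heisenberg map `x + B(x,p) v - B(x,v) p + c B(x,p) p`. -/
def hL (B : HForm σ X) (p v : X) (c : F) : X →ₗ[F] X :=
  LinearMap.id + (B.l p).smulRight v - (B.l v).smulRight p + c • (B.l p).smulRight p

theorem hL_apply (B : HForm σ X) (p v : X) (c : F) (x : X) :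
    hL B p v c x = x + B.f x p • v - B.f x v • p + (c * B.f x p) • p := by
  simp [hL, mul_smul, HForm.l_apply]

theorem hL_comp (B : HForm σ X) (p v w : X) (c d : F) (hp : B.f p p = 0) (hv : B.f v p = 0)
    (hw : B.f w p = 0) (x : X) :
    hL B p v c (hL B p w d x) = hL B p (v + w) (c + d - B.f w v) x := by
  have hpv := B.swap0 hv
  have h1 : B.f (hL B p w d x) p = B.f x p := by
    rw [hL_apply]
    simp only [B.add, B.sub_l, B.smul, hw, hp]
    ring
  have h2 : B.f (hL B p w d x) v = B.f x v + B.f x p * B.f w v := by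
    rw [hL_apply]
    simp only [B.add, B.sub_l, B.smul, hpv]
    ring
  rw [hL_apply B p v, h1, h2, hL_apply, hL_apply, B.add_r]
  module

theorem hL_zero (B : HForm σ X) (p x : X) : hL B p 0 0 x = x := by
  rw [hL_apply, B.zero_r]
  simp

/-- Heisenberg transformations. -/
def hE (B : HForm σ X) (p v : X) (c : F) (hp : B.f p p = 0) (hv : B.f v p = 0) : X ≃ₗ[F] X :=
  LinearEquiv.ofLinearMap (hL B p v c) (hL B p (-v) (-c - B.f v v))
    (by
      ext x
      have hv' : B.f (-v) p = 0 := by rw [B.neg_l, hv, neg_zero]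
      simp only [LinearMap.comp_apply, LinearMap.id_apply]
      rw [hL_comp B p v (-v) _ _ hp hv hv', B.neg_l]
      have e : c + (-c - B.f v v) - -B.f v v = 0 := by ring
      rw [e, add_neg_cancel, hL_zero])
    (by
      ext x
      have hv' : B.f (-v) p = 0 := by rw [B.neg_l, hv, neg_zero]
      simp only [LinearMap.comp_apply, LinearMap.id_apply]
      rw [hL_comp B p (-v) v _ _ hp hv' hv, B.neg_r]
      have e : -c - B.f v v + c - -B.f v v = 0 := by ring
      rw [e, neg_add_cancel, hL_zero])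

theorem hE_apply (B : HForm σ X) (p v : X) (c : F) (hp : B.f p p = 0) (hv : B.f v p = 0)
    (x : X) : hE B p v c hp hv x = x + B.f x p • v - B.f x v • p + (c * B.f x p) • p :=
  hL_apply B p v c x

/-- The transvections at `p`. -/
def Tg (B : HForm σ X) (p : X) : Set (X ≃ₗ[F] X) :=
  {g | ∃ c : F, c + σ c = 0 ∧ ∀ x, g x = x + (c * B.f x p) • p}

/-- The functions invariant under the transvections at `p`. -/
def IT (R K : Type*) [Field K] [CommRing R] [Algebra R K] (B : HForm σ X) (p : X) :
    Submodule R (Submodule F X → K) where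
  carrier := {f | ∀ g ∈ Tg B p, act g f = f}
  zero_mem' := fun _ _ => rfl
  add_mem' := by
    intro a b ha hb g hg
    have e : act g (a + b) = act g a + act g b := rfl
    rw [e, ha g hg, hb g hg]
  smul_mem' := by
    intro a f hf g hg
    have e : act g (a • f) = a • act g f := rfl
    rw [e, hf g hg]

/-- The Heisenberg transformations at `p` with parameter in `pp B Y p p'`. -/
def eV {B : HForm σ X} {Y : Submodule F X} {p p' : X} (h : HP B Y p p')
    (v : ↥(pp B Y p p')) (c : F) : X ≃ₗ[F] X :=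
  hE B p v.1 c h.q1 (mem_pp.1 v.2).2.1

/-- The admissible parameters. -/
def Adm (B : HForm σ X) (v : X) (c : F) : Prop := c + σ c + B.f v v = 0

/-- Functions of weight `y` under the Heisenberg group at `p`. -/
def WU (K : Type*) {R : Type*} [Field K] [CommRing R] [Algebra R K] {B : HForm σ X}
    {Y : Submodule F X} {p p' : X} (h : HP B Y p p') (χ : AddChar F R) (y : X) :
    Submodule R (Submodule F X → K) where
  carrier := {f | ∀ (v : ↥(pp B Y p p')) (c : F), Adm B v.1 c →
    act (eV h v c) f = χ (B.f v.1 y) • f}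
  zero_mem' := by
    intro v c _
    rw [smul_zero]
    rfl
  add_mem' := by
    intro a b ha hb v c hc
    have e : act (eV h v c) (a + b) = act (eV h v c) a + act (eV h v c) b := rfl
    rw [e, ha v c hc, hb v c hc, smul_add]
  smul_mem' := by
    intro a f hf v c hc
    have e : act (eV h v c) (a • f) = a • act (eV h v c) f := rfl
    rw [e, hf v c hc, smul_comm]

/-- Join with a line. -/
abbrev jn (p : X) (A : Submodule F X) : Submodule F X := Submodule.span F {p} ⊔ A

/-- Stabilizer of `y` in `Gr B Z`. -/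
def GrF (B : HForm σ X) (Z : Submodule F X) (y : X) : Set (X ≃ₗ[F] X) :=
  {g | g ∈ Gr B Z ∧ g y = y}

/-- The induction hypothesis. -/
def IH (R K : Type*) [Field K] [CommRing R] [IsLocalRing R] [Algebra R K]
    (B : HForm σ X) (m : ℕ) : Prop :=
  ∀ Y : Submodule F X, finrank F Y < m → ND B Y → ∀ j,
    Bd R K (Gr B Y) (Sk B Y j) (3 ^ finrank F Y)

end GUM
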