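import Pool.Agent.Helper60.GUM.St
import Pool.Agent.Helper60.UN.UG
import Pool.Agent.Helper60.OG.Fin

/-!
Project GUM (MP_0bd1d1_al): from functions on subspaces to representations.
-/

set_option autoImplicit false

namespace GUM

open Module OG

/-- Chains in a subrepresentation of the permutation representation. -/
theorem chain_le {F X R K V : Type*} [Field F] [AddCommGroup X] [Module F X]
    [CommRing R] [IsLocalRing R] [Field K] [Algebra R K]
    (G₀ : Set (X ≃ₗ[F] X)) (S : Set (Submodule F X)) (n : ℕ) (hB : Bd R K G₀ S n)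
    (G : Subgroup (X ≃ₗ[F] X)) (hG : ∀ g ∈ G₀, g ∈ G)
    [AddCommGroup V] [Module K V] [Module R V] [IsScalarTower R K V]
    (ρ : Representation K G V) (ι : V →ₗ[K] (Submodule F X → K))
    (hι : Function.Injective ι) (hS : ∀ v W, W ∉ S → ι v W = 0)
    (hρ : ∀ (g : G) v W, ι (ρ g v) W = ι v (W.comap ((g : X ≃ₗ[F] X) : X →ₗ[F] X)))
    (L : Submodule R V) (r : ℕ) (N : ℕ → Submodule R V)
    (hN : ∀ i ≤ r, ∀ (g : G), ∀ v ∈ N i, ρ g v ∈ N i)
    (hlt : ∀ i < r, N i < N (i + 1)) (hr : N r ≤ L)
    (hm : ∀ a ∈ IsLocalRing.maximalIdeal R, ∀ v ∈ L, a • v ∈ N 0) : r ≤ n := by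
  set I : V →ₗ[R] (Submodule F X → K) := ι.restrictScalars R with hI
  have hIinj : Function.Injective I := hι
  set N' : ℕ → Submodule R (Submodule F X → K) := fun i => (N (min i r)).map I with hN'
  have hmono : ∀ i j, i ≤ j → j ≤ r → N i ≤ N j := by
    intro i j hij hjr
    induction j with
    | zero =>
      have : i = 0 := by omega
      rw [this]
    | succ j ih =>
      rcases Nat.lt_or_ge j i with h | h
      · have : i = j + 1 := by omega
        rw [this]
      · exact le_trans (ih h (by omega)) (hlt j (by omega)).le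
  have hCh : Ch R G₀ S N' := by
    refine ⟨?_, ?_, ?_, ?_⟩
    · intro a b hab
      exact Submodule.map_mono (hmono _ _ (min_le_min_right r hab) (min_le_right _ _))
    · intro i f hf W hW
      obtain ⟨v, _, rfl⟩ := (Submodule.mem_map).1 hf
      exact hS v W hW
    · intro i a ha f hf
      obtain ⟨v, hv, rfl⟩ := (Submodule.mem_map).1 hf
      rw [← map_smul]
      apply Submodule.mem_map_of_mem
      rw [Nat.zero_min]
      exact hm a ha v (hr (hmono _ _ (min_le_right i r) le_rfl hv))
    · intro g hg i f hf
      obtain ⟨v, hv, rfl⟩ := (Submodule.mem_map).1 hf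
      have h1 : act g (I v) = I (ρ ⟨g, hG g hg⟩ v) := by
        funext W
        have h2 : g⁻¹ • W = W.comap (g : X →ₗ[F] X) := by
          ext x
          rw [mem_smul, Submodule.mem_comap]
          constructor
          · rintro ⟨w, hw, rfl⟩
            have : g (g⁻¹ w) = w := g.apply_symm_apply w
            change g (g⁻¹ w) ∈ W
            rw [this]
            exact hw
          · intro hx
            exact ⟨g x, hx, g.symm_apply_apply x⟩
        rw [act_apply, h2]
        exact (hρ ⟨g, hG g hg⟩ v W).symm
      rw [h1]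
      exact Submodule.mem_map_of_mem (hN _ (min_le_right i r) _ v hv)
  have hsteps : steps N' r = Finset.range r := by
    ext i
    rw [mem_steps, Finset.mem_range]
    constructor
    · exact fun h => h.1
    · intro h
      refine ⟨h, ?_⟩
      intro he
      have h1 : min i r = i := min_eq_left h.le
      have h2 : min (i + 1) r = i + 1 := min_eq_left h
      have he' : (N (min i r)).map I = (N (min (i + 1) r)).map I := he
      rw [h1, h2] at he'
      exact (hlt i h).ne (Submodule.map_injective_of_injective hIinj he')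
  have hfin := hB N' hCh r
  rw [hsteps, Finset.card_range] at hfin
  exact hfin

variable {k F X : Type*} [Field k] [Field F] [Algebra k F] [AddCommGroup X] [Module F X]
  {σ : F ≃ₐ[k] F} {B : HForm σ X}

/-- The whole space. -/
theorem Bd_top {R K : Type*} [Field K] [CommRing R] [IsLocalRing R] [Algebra R K] {j n : ℕ}
    (h : Bd R K (Gr B ⊤) (Sk B ⊤ j) n) :
    Bd R K {g : X ≃ₗ[F] X | ∀ u v, B.f (g u) (g v) = B.f u v}
      {W : Submodule F X | finrank F W = j ∧ ∀ u ∈ W, ∀ v ∈ W, B.f u v = 0} n := by
  refine Bd_mono h ?_ ?_ le_rfl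
  · exact fun g hg => hg.1
  · exact fun W hW => ⟨le_top, hW.1, hW.2⟩

end GUM
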