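import Pool.Agent.Helper60.GUM.Main

/-!
Project GUM (MP_0bd1d1_al): the theorem for the whole space.
-/

set_option autoImplicit false

namespace GUM

open Module OG

universe u v w z y

theorem Bd_T0 {k : Type u} {F : Type v} {X : Type y} [Field k] [Finite k] [Field F] [Algebra k F]
    [AddCommGroup X] [Module F X] [FiniteDimensional F X] {σ : F ≃ₐ[k] F} {B : HForm σ X}
    (hQ : UN.QE σ) (hND : ND B ⊤) (p : ℕ) [Fact p.Prime] [CharP k p]
    {R : Type w} {K : Type z} [CommRing R] [IsDomain R] [ValuationRing R] [Field K]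
    [Algebra R K] [IsFractionRing R K] (hp : IsUnit (p : R)) (ζ : R) (hζ : IsPrimitiveRoot ζ p)
    (hnz : ((Nat.card k : ℕ) : K) + 1 ≠ 0) (j : ℕ) :
    Bd R K (Gr B ⊤) (Sk B ⊤ j) (3 ^ finrank F X) := by
  have hfd : FiniteDimensional k F := Module.finite_of_finrank_pos (by rw [hQ.dim]; norm_num)
  have hfF : Finite F := Module.finite_of_finite k
  have hcF : CharP F p := charP_of_injective_algebraMap (algebraMap k F).injective p
  obtain ⟨ψ, hψ⟩ := OG.exists_char (k := k) (R := R) p ζ hζ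
  obtain ⟨χ, hχ⟩ := OG.exists_char (k := F) (R := R) p ζ hζ
  have hq : IsUnit ((Nat.card k : ℕ) : R) := by
    have : Fintype k := Fintype.ofFinite k
    obtain ⟨n, _, hn⟩ := FiniteField.card k p
    rw [Nat.card_eq_fintype_card, hn, Nat.cast_pow]
    exact hp.pow _
  have hqF : IsUnit ((Nat.card F : ℕ) : R) := by
    have : Fintype F := Fintype.ofFinite F
    obtain ⟨n, _, hn⟩ := FiniteField.card F p
    rw [Nat.card_eq_fintype_card, hn, Nat.cast_pow]
    exact hp.pow _
  have hG : StGrp B := hGrp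
  have hW : StWit B := Pool.Agent.Helper36.GUM.hWit hQ
  have hTo : StTor B := Pool.Agent.Helper10.GUM.hTor hQ
  have hH : StHyp B := Pool.Agent.Helper24.GUM.hHyp hQ
  have hGen : StGen R K B := @genf.{u, v, w, z, y} k F R K _ _ _ _ X _ _ _ _ _ _ _ _ σ hQ B ψ hψ
    hq hG hH hW
  have hBas : StBas R K B := @basf.{u, v, w, z, y} k F R K _ _ _ _ X _ _ _ _ _ _ _ _ _ σ
    hQ B ψ χ hψ hχ hq hnz hG hTo hH
  exact main_ind hQ χ hχ hqF hGen hBas (finrank F X) ⊤ (finrank_top F X) hND j

theorem Bd_GU {k : Type u} {F : Type v} {X : Type y} [Field k] [Finite k] [Field F] [Algebra k F]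
    [AddCommGroup X] [Module F X] [FiniteDimensional F X] {σ : F ≃ₐ[k] F} {B : HForm σ X}
    (hQ : UN.QE σ) (hnd : ∀ x, (∀ y, B.f x y = 0) → x = 0) (p : ℕ) [Fact p.Prime] [CharP k p]
    {R : Type w} {K : Type z} [CommRing R] [IsDomain R] [ValuationRing R] [Field K]
    [Algebra R K] [IsFractionRing R K] (hp : IsUnit (p : R)) (ζ : R) (hζ : IsPrimitiveRoot ζ p)
    (j : ℕ) :
    Bd R K {g : X ≃ₗ[F] X | ∀ u v, B.f (g u) (g v) = B.f u v}
      {W : Submodule F X | finrank F W = j ∧ ∀ u ∈ W, ∀ v ∈ W, B.f u v = 0}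
      (3 ^ finrank F X) := by
  have hfd : FiniteDimensional k F := Module.finite_of_finrank_pos (by rw [hQ.dim]; norm_num)
  have hfF : Finite F := Module.finite_of_finite k
  have hfX : Finite X := Module.finite_of_finite F
  have hfS : Finite (Submodule F X) :=
    Finite.of_injective (fun W : Submodule F X => (W : Set X)) SetLike.coe_injective
  have hND : ND B ⊤ := by
    intro x _ hx
    by_contra hcon
    push Not at hcon
    exact hx (hnd x fun y => hcon y trivial)
  refine Bd_top ?_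
  refine Ext.Bd_of_nz (Set.toFinite _) (hGrp.stb ⊤ j) p (Nat.card k) _ ?_ hp ζ hζ
  intro R' K' _ _ _ _ _ _ ζ' hp' hζ' hnz
  exact Bd_T0 hQ hND p hp' ζ' hζ' hnz j

end GUM
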