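import Pool.Agent.Helper60.GUM.M_RED

/-!
Project GUM (MP_0bd1d1_al), module EXT: change of the coefficients.
-/

set_option autoImplicit false

namespace GUM.Ext

open OG

/-- A bound over an extension field is a bound over the field. -/
theorem Bd_field {Ω E k₁ k₂ : Type*} [Group E] [MulAction E Ω] [Field k₁] [Field k₂]
    [Algebra k₁ k₂] {H : Set E} {S : Set Ω} {n : ℕ} (h : Bd k₂ k₂ H S n) : Bd k₁ k₁ H S n := by
  intro N hN r
  obtain ⟨π, hπ⟩ := LinearMap.exists_leftInverse_of_injective (Algebra.linearMap k₁ k₂)
    (LinearMap.ker_eq_bot.2 (algebraMap k₁ k₂).injective)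
  have hπ1 : ∀ a, π (algebraMap k₁ k₂ a) = a := fun a => LinearMap.congr_fun hπ a
  set up : (Ω → k₁) → (Ω → k₂) := fun f w => algebraMap k₁ k₂ (f w) with hup
  set N' : ℕ → Submodule k₂ (Ω → k₂) := fun i => Submodule.span k₂ (up '' (N i : Set (Ω → k₁)))
    with hN'
  have hdown : ∀ i, ∀ x ∈ N' i, ∀ c : k₂, (fun w => π (c * x w)) ∈ N i := by
    intro i x hx
    refine Submodule.span_induction (p := fun x _ => ∀ c : k₂, (fun w => π (c * x w)) ∈ N i)
      ?_ ?_ ?_ ?_ hx
    · rintro _ ⟨f, hf, rfl⟩ c
      have : (fun w => π (c * up f w)) = π c • f := by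
        funext w
        change π (c * algebraMap k₁ k₂ (f w)) = π c * f w
        rw [mul_comm c, ← Algebra.smul_def, map_smul, smul_eq_mul, mul_comm]
      rw [this]
      exact Submodule.smul_mem _ _ hf
    · intro c
      have : (fun w : Ω => π (c * (0 : Ω → k₂) w)) = 0 := by
        funext w
        simp
      rw [this]
      exact zero_mem _
    · intro x y _ _ hx hy c
      have : (fun w => π (c * (x + y) w)) = (fun w => π (c * x w)) + fun w => π (c * y w) := by
        funext w
        simp [mul_add]
      rw [this]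
      exact Submodule.add_mem _ (hx c) (hy c)
    · intro a x _ hx c
      have : (fun w => π (c * (a • x) w)) = fun w => π ((c * a) * x w) := by
        funext w
        rw [Pi.smul_apply, smul_eq_mul, mul_assoc]
      rw [this]
      exact hx (c * a)
  refine steps_le_one N N' n r ?_ (h N' ⟨?_, ?_, ?_, ?_⟩ r)
  · intro i hi
    apply le_antisymm (hN.mono (Nat.le_succ i))
    intro f hf
    have h1 : up f ∈ N' (i + 1) := Submodule.subset_span ⟨f, hf, rfl⟩
    rw [← hi] at h1
    have h2 := hdown i _ h1 1
    have h3 : (fun w => π (1 * up f w)) = f := by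
      funext w
      rw [one_mul]
      exact hπ1 _
    rwa [h3] at h2
  · intro i j hij
    exact Submodule.span_mono (Set.image_mono (hN.mono hij))
  · intro i f hf
    have hle : N' i ≤ supS k₂ k₂ S := by
      refine Submodule.span_le.2 ?_
      rintro _ ⟨g, hg, rfl⟩ w hw
      change algebraMap k₁ k₂ (g w) = 0
      rw [hN.supp i g hg w hw, map_zero]
    exact hle hf
  · intro i a ha f hf
    have ha0 : a = 0 := by
      by_contra hne
      exact (IsLocalRing.mem_maximalIdeal a).1 ha (IsUnit.mk0 a hne)
    rw [ha0, zero_smul]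
    exact zero_mem _
  · intro g hg i f hf
    have hle : (N' i).map (actL k₂ g) ≤ N' i := by
      rw [Submodule.map_span_le]
      rintro _ ⟨u, hu, rfl⟩
      exact Submodule.subset_span ⟨act g u, hN.stab g hg i u hu, rfl⟩
    exact hle (Submodule.mem_map_of_mem hf)

/-- A bound over a local domain is a bound over its residue field. -/
theorem Bd_lift {Ω E R K κ : Type*} [Group E] [MulAction E Ω] [CommRing R] [IsDomain R]
    [IsLocalRing R] [Field K] [Algebra R K] [IsFractionRing R K] [Field κ] (φ : R →+* κ)
    (hφ : Function.Surjective φ) (hm : ∀ a ∈ IsLocalRing.maximalIdeal R, φ a = 0)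
    {H : Set E} {S : Set Ω} {n : ℕ} (hS : Stb H S) (h : Bd R K H S n) : Bd κ κ H S n := by
  classical
  intro N hN r
  have hinj : ∀ a b : R, algebraMap R K a = algebraMap R K b → a = b :=
    fun a b e => IsFractionRing.injective R K e
  set N' : ℕ → Submodule R (Ω → K) := fun i =>
    { carrier := {f | ∃ g : Ω → R, (∀ w, f w = algebraMap R K (g w)) ∧ (∀ w, w ∉ S → g w = 0) ∧
        (fun w => φ (g w)) ∈ N i}
      zero_mem' := by
        refine ⟨fun _ => 0, fun w => by simp, fun _ _ => rfl, ?_⟩
        have : (fun _ : Ω => φ (0 : R)) = 0 := by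
          funext w
          simp
        rw [this]
        exact zero_mem _
      add_mem' := by
        rintro f f' ⟨g, h1, h2, h3⟩ ⟨g', h1', h2', h3'⟩
        refine ⟨fun w => g w + g' w, fun w => ?_, fun w hw => ?_, ?_⟩
        · rw [Pi.add_apply, h1, h1', map_add]
        · change g w + g' w = 0
          rw [h2 w hw, h2' w hw, add_zero]
        · have : (fun w => φ (g w + g' w)) = (fun w => φ (g w)) + fun w => φ (g' w) := by
            funext w
            rw [map_add]
            rfl
          rw [this]
          exact Submodule.add_mem _ h3 h3'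
      smul_mem' := by
        rintro c f ⟨g, h1, h2, h3⟩
        refine ⟨fun w => c * g w, fun w => ?_, fun w hw => ?_, ?_⟩
        · rw [Pi.smul_apply, h1, Algebra.smul_def, map_mul]
        · change c * g w = 0
          rw [h2 w hw, mul_zero]
        · have : (fun w => φ (c * g w)) = φ c • fun w => φ (g w) := by
            funext w
            rw [map_mul]
            rfl
          rw [this]
          exact Submodule.smul_mem _ _ h3 } with hN'
  have hmem : ∀ i f, f ∈ N' i ↔ ∃ g : Ω → R, (∀ w, f w = algebraMap R K (g w)) ∧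
      (∀ w, w ∉ S → g w = 0) ∧ (fun w => φ (g w)) ∈ N i := fun i f => Iff.rfl
  refine steps_le_one N N' n r ?_ (h N' ⟨?_, ?_, ?_, ?_⟩ r)
  · intro i hi
    apply le_antisymm (hN.mono (Nat.le_succ i))
    intro u hu
    obtain ⟨g, hg⟩ : ∃ g : Ω → R, ∀ w, φ (g w) = u w ∧ (w ∉ S → g w = 0) := by
      have : ∀ w, ∃ a : R, φ a = u w ∧ (w ∉ S → a = 0) := by
        intro w
        by_cases hw : w ∈ S
        · obtain ⟨a, ha⟩ := hφ (u w)
          exact ⟨a, ha, fun h' => absurd hw h'⟩
        · exact ⟨0, by rw [map_zero, hN.supp _ u hu w hw], fun _ => rfl⟩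
      exact Classical.axiomOfChoice this
    have hu' : (fun w => φ (g w)) = u := funext (fun w => (hg w).1)
    have h1 : (fun w => algebraMap R K (g w)) ∈ N' (i + 1) := by
      rw [hmem]
      exact ⟨g, fun w => rfl, fun w hw => (hg w).2 hw, by rw [hu']; exact hu⟩
    rw [← hi, hmem] at h1
    obtain ⟨g', h2, -, h4⟩ := h1
    have : g = g' := funext (fun w => hinj _ _ (h2 w))
    rw [← this, hu'] at h4
    exact h4
  · intro i j hij f hf
    obtain ⟨g, h1, h2, h3⟩ := (hmem i f).1 hf
    exact (hmem j f).2 ⟨g, h1, h2, hN.mono hij h3⟩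
  · intro i f hf w hw
    obtain ⟨g, h1, h2, -⟩ := (hmem i f).1 hf
    rw [h1, h2 w hw, map_zero]
  · intro i a ha f hf
    obtain ⟨g, h1, h2, -⟩ := (hmem i f).1 hf
    refine (hmem 0 _).2 ⟨fun w => a * g w, fun w => ?_, fun w hw => ?_, ?_⟩
    · rw [Pi.smul_apply, h1, Algebra.smul_def, map_mul]
    · change a * g w = 0
      rw [h2 w hw, mul_zero]
    · have : (fun w => φ (a * g w)) = 0 := by
        funext w
        rw [map_mul, hm a ha, zero_mul]
        rfl
      rw [this]
      exact zero_mem _
  · intro g hg i f hf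
    obtain ⟨u, h1, h2, h3⟩ := (hmem i f).1 hf
    refine (hmem i _).2 ⟨fun w => u (g⁻¹ • w), fun w => ?_, fun w hw => ?_, ?_⟩
    · rw [act_apply, h1]
    · exact h2 _ (fun h' => hw ((Stb_inv hS hg w).1 h'))
    · have : (fun w => φ (u (g⁻¹ • w))) = act g (fun w => φ (u w)) := rfl
      rw [this]
      exact hN.stab g hg i _ h3

theorem natCast_ne_zero_witt {l : ℕ} [Fact l.Prime] {κ : Type*} [Field κ] [CharP κ l]
    [PerfectRing κ l] : ∀ n : ℕ, n ≠ 0 → (n : WittVector l κ) ≠ 0 := by
  intro n
  induction n using Nat.strong_induction_on with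
  | _ n ih =>
    intro hn
    by_cases hd : l ∣ n
    · obtain ⟨m, rfl⟩ := hd
      have hl : (l : WittVector l κ) ≠ 0 := (WittVector.irreducible l).ne_zero
      have hm0 : m ≠ 0 := by
        rintro rfl
        exact hn rfl
      have h2 : 2 ≤ l := (Fact.out : l.Prime).two_le
      have hlt : m < l * m := by
        have : 0 < m := Nat.pos_of_ne_zero hm0
        nlinarith
      rw [Nat.cast_mul]
      exact mul_ne_zero hl (ih m hlt hm0)
    · intro h0
      apply hd
      have h1 : (WittVector.constantCoeff : WittVector l κ →+* κ) (n : WittVector l κ) = 0 := by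
        rw [h0, map_zero]
      rw [map_natCast] at h1
      exact (CharP.cast_eq_zero_iff κ l n).1 h1

theorem prim_residue {R : Type*} [CommRing R] [IsDomain R] [IsLocalRing R] {p : ℕ}
    [Fact p.Prime] (hp : IsUnit (p : R)) {ζ : R} (hζ : IsPrimitiveRoot ζ p) :
    IsPrimitiveRoot (IsLocalRing.residue R ζ) p := by
  have h1 : (IsLocalRing.residue R ζ) ^ p = 1 := by
    rw [← map_pow, hζ.pow_eq_one, map_one]
  have h2 : IsLocalRing.residue R ζ ≠ 1 := by
    intro h
    have h3 := hζ.geom_sum_eq_zero (Fact.out : p.Prime).one_lt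
    have h4 := congrArg (IsLocalRing.residue R) h3
    rw [map_sum, map_zero] at h4
    simp only [map_pow, h, one_pow, Finset.sum_const, Finset.card_range, nsmul_eq_mul,
      mul_one] at h4
    rw [← map_natCast (IsLocalRing.residue R)] at h4
    exact (IsLocalRing.residue_ne_zero_iff_isUnit _).2 hp h4
  exact IsPrimitiveRoot.iff_orderOf.2 (orderOf_eq_prime h1 h2)

/-- The hypothesis `q + 1 ≠ 0` can be removed. -/
theorem Bd_of_nz.{u, v, w, z} {Ω : Type w} {E : Type z} [Group E] [MulAction E Ω] {H : Set E}
    {S : Set Ω} (hSf : S.Finite) (hS : Stb H S) (p q n : ℕ) [Fact p.Prime]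
    (hT : ∀ (R K : Type u) [CommRing R] [IsDomain R] [ValuationRing R] [Field K] [Algebra R K]
      [IsFractionRing R K] (ζ : R), IsUnit (p : R) → IsPrimitiveRoot ζ p → (q : K) + 1 ≠ 0 →
      Bd R K H S n)
    {R : Type u} {K : Type v} [CommRing R] [IsDomain R] [ValuationRing R] [Field K] [Algebra R K]
    [IsFractionRing R K] (hp : IsUnit (p : R)) (ζ : R) (hζ : IsPrimitiveRoot ζ p) :
    Bd R K H S n := by
  refine GUM.Red.Bd_red hSf ?_
  set κ := IsLocalRing.ResidueField R with hκ
  have hpκ : (p : κ) ≠ 0 := by
    rw [← map_natCast (IsLocalRing.residue R)]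
    exact (IsLocalRing.residue_ne_zero_iff_isUnit _).2 hp
  have hζκ : IsPrimitiveRoot (IsLocalRing.residue R ζ) p := prim_residue hp hζ
  by_cases hq : (q : κ) + 1 = 0
  · obtain ⟨l, hl⟩ := CharP.exists κ
    have hl0 : l ≠ 0 := by
      rintro rfl
      have h1 : ((q + 1 : ℕ) : κ) = 0 := by
        rw [Nat.cast_add, Nat.cast_one, hq]
      rw [CharP.cast_eq_zero_iff κ 0] at h1
      have := Nat.eq_zero_of_zero_dvd h1
      omega
    have hlp : l.Prime := (CharP.char_is_prime_or_zero κ l).resolve_right hl0
    have : Fact l.Prime := ⟨hlp⟩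
    have hcA : CharP (AlgebraicClosure κ) l :=
      charP_of_injective_algebraMap (algebraMap κ (AlgebraicClosure κ)).injective l
    refine Bd_field (k₂ := AlgebraicClosure κ) ?_
    have hunit : ∀ a : WittVector l (AlgebraicClosure κ),
        (WittVector.constantCoeff : WittVector l (AlgebraicClosure κ) →+* _) a ≠ 0 → IsUnit a :=
      fun a ha => WittVector.isUnit_of_coeff_zero_ne_zero a ha
    refine Bd_lift (R := WittVector l (AlgebraicClosure κ))
      (K := FractionRing (WittVector l (AlgebraicClosure κ))) WittVector.constantCoeff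
      (WittVector.constantCoeff_surjective l) ?_ hS ?_
    · intro a ha
      by_contra hne
      exact (IsLocalRing.mem_maximalIdeal a).1 ha (hunit a hne)
    · have hpA : ((p : ℕ) : AlgebraicClosure κ) ≠ 0 := by
        rw [← map_natCast (algebraMap κ (AlgebraicClosure κ))]
        exact (map_ne_zero _).2 hpκ
      have hζA : IsPrimitiveRoot
          (algebraMap κ (AlgebraicClosure κ) (IsLocalRing.residue R ζ)) p :=
        hζκ.map_of_injective (algebraMap κ (AlgebraicClosure κ)).injective
      have hinj : Function.Injective (WittVector.teichmuller l (R := AlgebraicClosure κ)) := by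
        intro a b hab
        rw [← WittVector.teichmuller_coeff_zero l a, hab, WittVector.teichmuller_coeff_zero]
      refine hT _ _ (WittVector.teichmuller l
        (algebraMap κ (AlgebraicClosure κ) (IsLocalRing.residue R ζ))) ?_
        (hζA.map_of_injective hinj) ?_
      · apply hunit
        rw [map_natCast]
        exact hpA
      · intro h0
        have h1 : algebraMap (WittVector l (AlgebraicClosure κ))
            (FractionRing (WittVector l (AlgebraicClosure κ)))
            (((q + 1 : ℕ) : WittVector l (AlgebraicClosure κ))) = 0 := by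
          rw [map_natCast, Nat.cast_add, Nat.cast_one, h0]
        have h2 := IsFractionRing.injective (WittVector l (AlgebraicClosure κ))
          (FractionRing (WittVector l (AlgebraicClosure κ))) (h1.trans (map_zero _).symm)
        exact natCast_ne_zero_witt (q + 1) (Nat.succ_ne_zero q) h2
  · exact hT κ κ (IsLocalRing.residue R ζ) (IsUnit.mk0 _ hpκ) hζκ hq

end GUM.Ext
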