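import Pool.Agent.Helper60.GUM.St

/-!
Project GUM (MP_0bd1d1_al), module GRP.
-/

set_option autoImplicit false

namespace GUM

open Module OG

variable {k F X : Type*} [Field k] [Field F] [Algebra k F] [AddCommGroup X] [Module F X]
  {σ : F ≃ₐ[k] F} {B : HForm σ X}

private theorem one' (Y : Submodule F X) : (1 : X ≃ₗ[F] X) ∈ Gr B Y := by
  refine ⟨fun x y => rfl, fun x => ?_, fun x _ => rfl⟩
  change x - x ∈ Y
  rw [sub_self]
  exact Y.zero_mem

private theorem mul' (Y : Submodule F X) (g : X ≃ₗ[F] X) (hg : g ∈ Gr B Y) (h : X ≃ₗ[F] X)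
    (hh : h ∈ Gr B Y) : g * h ∈ Gr B Y := by
  refine ⟨fun x y => ?_, fun x => ?_, fun x hx => ?_⟩
  · change B.f (g (h x)) (g (h y)) = B.f x y
    rw [hg.1, hh.1]
  · change g (h x) - x ∈ Y
    have h1 := Y.add_mem (hg.2.1 (h x)) (hh.2.1 x)
    rwa [sub_add_sub_cancel] at h1
  · change g (h x) = x
    rw [hh.2.2 x hx, hg.2.2 x hx]

private theorem inv' (Y : Submodule F X) (g : X ≃ₗ[F] X) (hg : g ∈ Gr B Y) : g⁻¹ ∈ Gr B Y := by
  have hgg : ∀ x, g (g⁻¹ x) = x := fun x => g.apply_symm_apply x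
  refine ⟨fun x y => ?_, fun x => ?_, fun x hx => ?_⟩
  · have h1 := hg.1 (g⁻¹ x) (g⁻¹ y)
    rw [hgg, hgg] at h1
    exact h1.symm
  · have h1 := Y.neg_mem (hg.2.1 (g⁻¹ x))
    rwa [hgg, neg_sub] at h1
  · have h1 := hg.2.2 x hx
    have h2 : g⁻¹ (g x) = x := g.symm_apply_apply x
    rw [h1] at h2
    exact h2

private theorem mono' (Z Y : Submodule F X) (h : Z ≤ Y) : Gr B Z ⊆ Gr B Y := fun _ hg =>
  ⟨hg.1, fun x => h (hg.2.1 x), fun x hx => hg.2.2 x fun y hy => hx y (h hy)⟩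

private theorem mem' (Y : Submodule F X) (g : X ≃ₗ[F] X) (hg : g ∈ Gr B Y) (x : X) :
    g x ∈ Y ↔ x ∈ Y := by
  have h1 := hg.2.1 x
  constructor
  · intro h2
    have h3 := Y.sub_mem h2 h1
    rwa [sub_sub_cancel] at h3
  · intro h2
    have h3 := Y.add_mem h1 h2
    rwa [sub_add_cancel] at h3

private theorem stb' (Y : Submodule F X) (j : ℕ) : Stb (Gr B Y) (Sk B Y j) := by
  have key : ∀ g ∈ Gr B Y, ∀ W ∈ Sk B Y j, g • W ∈ Sk B Y j := by
    rintro g hg W ⟨h1, h2, h3⟩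
    refine ⟨?_, ?_, ?_⟩
    · intro x hx
      obtain ⟨w, hw, rfl⟩ := (mem_smul g W x).1 hx
      exact (mem' Y g hg w).2 (h1 hw)
    · rw [smul_def, ← h2]
      exact LinearEquiv.finrank_map_eq g W
    · intro x hx y hy
      obtain ⟨w, hw, rfl⟩ := (mem_smul g W x).1 hx
      obtain ⟨w', hw', rfl⟩ := (mem_smul g W y).1 hy
      rw [hg.1]
      exact h3 w hw w' hw'
  intro g hg W
  refine ⟨fun h => ?_, key g hg W⟩
  have h1 := key g⁻¹ (inv' Y g hg) (g • W) h
  rwa [inv_smul_smul] at h1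

private theorem iso (p v : X) (c : F) (hp : B.f p p = 0) (hv : B.f v p = 0) (hc : Adm B v c)
    (x y : X) : B.f (hE B p v c hp hv x) (hE B p v c hp hv y) = B.f x y := by
  have hpv := B.swap0 hv
  have hc' : c = -σ c - B.f v v := by
    have := hc
    unfold Adm at this
    linear_combination this
  have e1 : B.f p y = σ (B.f y p) := B.sym y p
  have e2 : B.f v y = σ (B.f y v) := B.sym y v
  rw [hE_apply, hE_apply]
  simp only [B.add, B.sub_l, B.smul, B.add_r, B.sub_r, B.smul_r, hp, hv, hpv, map_mul, e1, e2]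
  have h3 : c * B.f x p * σ (B.f y p) = (-σ c - B.f v v) * B.f x p * σ (B.f y p) := by
    rw [← hc']
  linear_combination h3

private theorem heis' (Y : Submodule F X) (p v : X) (c : F) (hp : B.f p p = 0)
    (hv : B.f v p = 0) (h1 : p ∈ Y) (h2 : v ∈ Y) (hc : Adm B v c) :
    hE B p v c hp hv ∈ Gr B Y := by
  refine ⟨iso p v c hp hv hc, fun x => ?_, fun x hx => ?_⟩
  · have h3 : hE B p v c hp hv x - x = B.f x p • v - B.f x v • p + (c * B.f x p) • p := by
      rw [hE_apply]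
      module
    rw [h3]
    exact Y.add_mem (Y.sub_mem (Y.smul_mem _ h2) (Y.smul_mem _ h1)) (Y.smul_mem _ h1)
  · rw [hE_apply, hx p h1, hx v h2]
    simp

private theorem fix' (Y : Submodule F X) (p p' : X) (g : X ≃ₗ[F] X)
    (hg : g ∈ Gr B (pp B Y p p')) : g p = p ∧ g p' = p' :=
  ⟨hg.2.2 p fun _ hy => B.swap0 (mem_pp.1 hy).2.1,
    hg.2.2 p' fun _ hy => B.swap0 (mem_pp.1 hy).2.2⟩

private theorem finv' (Z : Submodule F X) (y : X) (g : X ≃ₗ[F] X) (hg : g ∈ GrF B Z y) :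
    g⁻¹ ∈ GrF B Z y := by
  refine ⟨inv' Z g hg.1, ?_⟩
  have h1 : g⁻¹ (g y) = y := g.symm_apply_apply y
  rwa [hg.2] at h1

private theorem smem' (Z : Submodule F X) (y : X) (S : Set (Submodule F X))
    (hS : Stb (GrF B Z y) S) : Stb (GrF B Z y) {A | A ∈ S ∧ y ∈ A} := by
  intro g hg w
  have : y ∈ g • w ↔ y ∈ w := by
    rw [mem_smul]
    constructor
    · rintro ⟨x, hx, hxy⟩
      have : x = y := g.injective (by rw [hxy, hg.2])
      rwa [← this]
    · intro hy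
      exact ⟨y, hy, hg.2⟩
  change g • w ∈ S ∧ y ∈ g • w ↔ w ∈ S ∧ y ∈ w
  rw [this, hS g hg w]

private theorem sperp' (Z : Submodule F X) (y : X) (S : Set (Submodule F X))
    (hS : Stb (GrF B Z y) S) : Stb (GrF B Z y) {A | A ∈ S ∧ ∀ a ∈ A, B.f a y = 0} := by
  intro g hg w
  have : (∀ a ∈ g • w, B.f a y = 0) ↔ ∀ a ∈ w, B.f a y = 0 := by
    constructor
    · intro h a ha
      have h1 := h (g a) ((mem_smul g w _).2 ⟨a, ha, rfl⟩)
      have h2 := hg.1.1 a y
      rw [hg.2] at h2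
      rw [← h2]
      exact h1
    · rintro h a ha
      obtain ⟨x, hx, rfl⟩ := (mem_smul g w _).1 ha
      have h2 := hg.1.1 x y
      rw [hg.2] at h2
      rw [h2]
      exact h x hx
  change g • w ∈ S ∧ (∀ a ∈ g • w, B.f a y = 0) ↔ w ∈ S ∧ ∀ a ∈ w, B.f a y = 0
  rw [this, hS g hg w]

theorem smul_jn (g : X ≃ₗ[F] X) {p : X} (hg : g p = p) (A : Submodule F X) :
    g • jn p A = jn p (g • A) := by
  rw [smul_def, smul_def]
  unfold jn
  rw [Submodule.map_sup, Submodule.map_span, Set.image_singleton]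
  rw [LinearEquiv.coe_coe, hg]

private theorem sjn' (H : Set (X ≃ₗ[F] X)) (p : X) (S : Set (Submodule F X))
    (hfix : ∀ g ∈ H, g p = p) (hS : Stb H S) : Stb H (jn p '' S) := by
  intro g hg w
  constructor
  · rintro ⟨A, hA, hAw⟩
    refine ⟨g⁻¹ • A, (Stb_inv hS hg A).2 hA, ?_⟩
    have hgi : g⁻¹ p = p := by
      have h1 : g⁻¹ (g p) = p := g.symm_apply_apply p
      rwa [hfix g hg] at h1
    have h2 : w = g⁻¹ • (jn p A) := by rw [hAw, inv_smul_smul]
    rw [h2]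
    exact (smul_jn g⁻¹ hgi A).symm
  · rintro ⟨A, hA, rfl⟩
    exact ⟨g • A, (hS g hg A).2 hA, (smul_jn g (hfix g hg) A).symm⟩

theorem hGrp : StGrp B where
  one := one'
  mul := mul'
  inv := inv'
  mono := mono'
  mem := mem'
  stb := stb'
  heis := heis'
  fix := fix'
  finv := finv'
  smem := smem'
  sperp := sperp'
  sjn := sjn'

/-- Bounds pass to joins with a fixed line. -/
theorem Bd_jn {R K : Type*} [Field K] [CommRing R] [IsLocalRing R] [Algebra R K]
    {H : Set (X ≃ₗ[F] X)} {S : Set (Submodule F X)} {p : X} {n : ℕ}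
    (hfix : ∀ g ∈ H, g p = p) (hS : Stb H S) (h : Bd R K H S n) :
    Bd R K H (jn p '' S) n :=
  Bd_image (jn p) hS (fun g hg w _ => (smul_jn g (hfix g hg) w).symm) h

theorem Stb_mono {H H' : Set (X ≃ₗ[F] X)} {S : Set (Submodule F X)} (h : Stb H S)
    (hH : H' ⊆ H) : Stb H' S :=
  fun g hg => h g (hH hg)

theorem Stb_union {H : Set (X ≃ₗ[F] X)} {S S' : Set (Submodule F X)} (h : Stb H S)
    (h' : Stb H S') : Stb H (S ∪ S') := by
  intro g hg w
  rw [Set.mem_union, Set.mem_union, h g hg w, h' g hg w]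

end GUM
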