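import Pool.Agent.Helper60.GUM.St

/-!
Project GUM (MP_0bd1d1_al), module IND.
-/

set_option autoImplicit false

namespace GUM

open Module OG

variable {k F X : Type*} [Field k] [Field F] [Algebra k F] [AddCommGroup X] [Module F X]
  {σ : F ≃ₐ[k] F} {B : HForm σ X} {R K : Type*} [Field K] [CommRing R] [Algebra R K]

private theorem arith (m : ℕ) (hm : 4 ≤ m) :
    3 * 3 ^ (m - 2) + (3 * 3 ^ (m - 4) + 3 ^ (m - 6)) + 3 ^ (m - 3) ≤ 3 ^ m := by
  rcases Nat.lt_or_ge m 6 with h | h
  · interval_cases m <;> norm_num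
  · obtain ⟨n, rfl⟩ := Nat.exists_eq_add_of_le h
    rw [show 6 + n - 2 = n + 4 by omega, show 6 + n - 4 = n + 2 by omega,
      show 6 + n - 6 = n by omega, show 6 + n - 3 = n + 3 by omega,
      show 6 + n = n + 6 by omega]
    simp only [pow_add]
    omega

theorem hInd [IsDomain R] [ValuationRing R] [IsFractionRing R K] (hH : StHyp B)
    (hS : StStp R K B) (hG : StGen R K B) (hB : StBas R K B) : StInd R K B := by
  intro m
  induction m using Nat.strong_induction_on with
  | _ m ih =>
    intro Y hm hY j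
    have hIH : IH R K B m := fun Y' hY' hnd j' => ih _ hY' Y' rfl hnd j'
    rcases Nat.lt_or_ge m 4 with h4 | h4
    · have := hB Y j hY (by omega)
      rwa [hm] at this
    by_cases hex : ∃ z ∈ Y, z ≠ 0 ∧ B.f z z = 0
    · obtain ⟨p, hp, hp0, hpq⟩ := hex
      obtain ⟨p', h⟩ := hH.exHP Y p hY hp hp0 hpq
      intro N hN r
      have h1 := hS m hIH Y p p' j hY h hm N hN r
      refine le_trans (steps_le_one N (fun i => N i ⊓ IT R K B p) _ r ?_ h1) (arith m h4)
      intro i hi
      exact hG Y p p' j hY h (by omega) N hN i hi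
    · push Not at hex
      refine Bd_mono (Bd_single (⊥ : Submodule F X)) subset_rfl ?_
        (Nat.one_le_pow _ _ (by norm_num))
      intro W hW
      rw [Set.mem_singleton_iff, Submodule.eq_bot_iff]
      intro x hx
      by_contra hx0
      exact hex x (hW.1 hx) hx0 (hW.2.2 x hx x hx)

end GUM
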