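import Pool.Agent.Helper60.OG.Base

/-!
Project GUM (MP_0bd1d1_al), module RED: a bound for chains over the residue field is a bound
for chains over the valuation ring.
-/

set_option autoImplicit false

namespace GUM.Red

open OG

section build

variable {ι M : Type*} [PartialOrder M] [OrderBot M]

/-- Pairwise comparable intervals can be arranged in one chain. -/
theorem chain_build (P : M → Prop) (hP : P ⊥) (A B : ι → M) : ∀ (n : ℕ) (T : Finset ι),
    T.card = n → (∀ i ∈ T, P (A i) ∧ P (B i) ∧ A i < B i) →
    (∀ i ∈ T, ∀ j ∈ T, i ≠ j → B i ≤ A j ∨ B j ≤ A i) →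
    ∃ (N : ℕ → M) (r : ℕ), Monotone N ∧ (∀ j, P (N j)) ∧ n ≤ (steps N r).card ∧
      ∀ U, (∀ i ∈ T, B i ≤ U) → ∀ j, N j ≤ U := by
  classical
  intro n
  induction n with
  | zero =>
    intro T _ _ _
    exact ⟨fun _ => ⊥, 0, fun _ _ _ => le_rfl, fun _ => hP, Nat.zero_le _,
      fun U _ _ => bot_le⟩
  | succ n ih =>
    intro T hT h1 h2
    have hne : T.Nonempty := by
      rw [← Finset.card_pos]
      omega
    obtain ⟨i0, hi0, hmax⟩ := T.exists_maximalFor B hne
    obtain ⟨N, r, hmono, hPN, hcard, hU⟩ := ih (T.erase i0)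
      (by rw [Finset.card_erase_of_mem hi0, hT]; rfl)
      (fun i hi => h1 i (Finset.mem_of_mem_erase hi))
      (fun i hi j hj => h2 i (Finset.mem_of_mem_erase hi) j (Finset.mem_of_mem_erase hj))
    have hle : ∀ j, N j ≤ A i0 := by
      apply hU
      intro i hi
      have hiT := Finset.mem_of_mem_erase hi
      rcases h2 i hiT i0 hi0 (Finset.ne_of_mem_erase hi) with h | h
      · exact h
      · exfalso
        have h3 : B i0 < B i := lt_of_le_of_lt h (h1 i hiT).2.2
        exact h3.not_ge (hmax hiT h3.le)
    have hAB := (h1 i0 hi0).2.2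
    refine ⟨fun j => if j ≤ r then N j else if j = r + 1 then A i0 else B i0, r + 2,
      ?_, ?_, ?_, ?_⟩
    · apply monotone_nat_of_le_succ
      intro j
      rcases lt_trichotomy j r with h | h | h
      · rw [if_pos h.le, if_pos (by omega)]
        exact hmono (Nat.le_succ j)
      · rw [if_pos h.le, if_neg (by omega), if_pos (by omega)]
        exact hle j
      · by_cases h' : j = r + 1
        · rw [if_neg (show ¬ j ≤ r by omega), if_pos h', if_neg (show ¬ j + 1 ≤ r by omega),
            if_neg (show ¬ j + 1 = r + 1 by omega)]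
          exact hAB.le
        · rw [if_neg (show ¬ j ≤ r by omega), if_neg h', if_neg (show ¬ j + 1 ≤ r by omega),
            if_neg (show ¬ j + 1 = r + 1 by omega)]
    · intro j
      dsimp only
      split_ifs
      · exact hPN j
      · exact (h1 i0 hi0).1
      · exact (h1 i0 hi0).2.1
    · have hsub : insert (r + 1) (steps N r) ⊆
          steps (fun j => if j ≤ r then N j else if j = r + 1 then A i0 else B i0) (r + 2) := by
        intro j hj
        rw [Finset.mem_insert] at hj
        rw [mem_steps]
        rcases hj with rfl | hj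
        · refine ⟨by omega, ?_⟩
          rw [if_neg (by omega), if_pos rfl, if_neg (by omega), if_neg (by omega)]
          exact hAB.ne
        · rw [mem_steps] at hj
          refine ⟨by omega, ?_⟩
          rw [if_pos hj.1.le, if_pos (by omega)]
          exact hj.2
      refine le_trans ?_ (Finset.card_le_card hsub)
      rw [Finset.card_insert_of_notMem]
      · omega
      · intro h
        rw [mem_steps] at h
        omega
    · intro U hUU j
      dsimp only
      have hB := hUU i0 hi0
      split_ifs
      · exact le_trans (hle j) (le_trans hAB.le hB)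
      · exact le_trans hAB.le hB
      · exact hB

end build

section gr

variable {Ω E K R : Type*} [Group E] [MulAction E Ω] [Field K] [CommRing R] [IsLocalRing R]
  [Algebra R K]

/-- The reductions of the elements of `N` divided by `a`. -/
def gr (N : Submodule R (Ω → K)) (a : K) :
    Submodule (IsLocalRing.ResidueField R) (Ω → IsLocalRing.ResidueField R) where
  carrier := {u | ∃ g : Ω → R, (fun w => a * algebraMap R K (g w)) ∈ N ∧
    ∀ w, IsLocalRing.residue R (g w) = u w}
  zero_mem' := by
    refine ⟨fun _ => 0, ?_, fun w => by simp⟩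
    have : (fun _ : Ω => a * algebraMap R K 0) = 0 := by
      funext w
      simp
    rw [this]
    exact zero_mem _
  add_mem' := by
    rintro u u' ⟨g, hg, hu⟩ ⟨g', hg', hu'⟩
    refine ⟨fun w => g w + g' w, ?_, fun w => ?_⟩
    · have : (fun w : Ω => a * algebraMap R K (g w + g' w)) =
          (fun w => a * algebraMap R K (g w)) + fun w => a * algebraMap R K (g' w) := by
        funext w
        rw [Pi.add_apply, map_add, mul_add]
      rw [this]
      exact Submodule.add_mem _ hg hg'
    · rw [map_add, hu, hu']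
      rfl
  smul_mem' := by
    rintro c u ⟨g, hg, hu⟩
    obtain ⟨d, rfl⟩ := IsLocalRing.residue_surjective c
    refine ⟨fun w => d * g w, ?_, fun w => ?_⟩
    · have : (fun w : Ω => a * algebraMap R K (d * g w)) =
          d • (fun w => a * algebraMap R K (g w)) := by
        funext w
        rw [Pi.smul_apply, Algebra.smul_def, map_mul]
        ring
      rw [this]
      exact Submodule.smul_mem _ _ hg
    · rw [map_mul, hu]
      rfl

theorem mem_gr {N : Submodule R (Ω → K)} {a : K} {u : Ω → IsLocalRing.ResidueField R} :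
    u ∈ gr N a ↔ ∃ g : Ω → R, (fun w => a * algebraMap R K (g w)) ∈ N ∧
      ∀ w, IsLocalRing.residue R (g w) = u w := Iff.rfl

theorem gr_mono {N N' : Submodule R (Ω → K)} (h : N ≤ N') (a : K) : gr N a ≤ gr N' a := by
  rintro u ⟨g, hg, hu⟩
  exact ⟨g, h hg, hu⟩

/-- Change of the scale. -/
theorem gr_scale {N N' : Submodule R (Ω → K)} {a b : K} (c : R)
    (hc : b = algebraMap R K c * a) (h : ∀ f ∈ N, c • f ∈ N') : gr N a ≤ gr N' b := by
  rintro u ⟨g, hg, hu⟩
  refine ⟨g, ?_, hu⟩
  have : (fun w : Ω => b * algebraMap R K (g w)) = c • fun w => a * algebraMap R K (g w) := by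
    funext w
    rw [Pi.smul_apply, Algebra.smul_def, hc]
    ring
  rw [this]
  exact h _ hg

theorem gr_supp {S : Set Ω} {N : Submodule R (Ω → K)} [FaithfulSMul R K]
    (hN : ∀ f ∈ N, ∀ w, w ∉ S → f w = 0) {a : K} (ha : a ≠ 0)
    {u : Ω → IsLocalRing.ResidueField R} (hu : u ∈ gr N a) (w : Ω) (hw : w ∉ S) : u w = 0 := by
  obtain ⟨g, hg, hgu⟩ := hu
  have h1 := hN _ hg w hw
  have h2 : g w = 0 := by
    rcases mul_eq_zero.1 h1 with h | h
    · exact absurd h ha
    · exact (FaithfulSMul.algebraMap_injective R K) (by rw [h, map_zero])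
  rw [← hgu, h2, map_zero]

theorem gr_act {N : Submodule R (Ω → K)} {g : E} (hN : ∀ f ∈ N, act g f ∈ N) {a : K}
    {u : Ω → IsLocalRing.ResidueField R} (hu : u ∈ gr N a) : act g u ∈ gr N a := by
  obtain ⟨f, hf, hfu⟩ := hu
  refine ⟨fun w => f (g⁻¹ • w), hN _ hf, fun w => ?_⟩
  rw [hfu]
  rfl

end gr

section key

variable {Ω K R : Type*} [Field K] [CommRing R] [IsDomain R] [ValuationRing R] [Algebra R K]
  [IsFractionRing R K]

/-- The largest coordinate. -/
theorem exists_top (S : Finset Ω) (x : Ω → K) (hx : ∀ w, w ∉ S → x w = 0) (h0 : x ≠ 0) :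
    ∃ w₀ ∈ S, x w₀ ≠ 0 ∧ ∃ h : Ω → R, (∀ w, x w = x w₀ * algebraMap R K (h w)) ∧ h w₀ = 1 := by
  classical
  have hne : ∃ w ∈ S, x w ≠ 0 := by
    by_contra hcon
    push Not at hcon
    apply h0
    funext w
    by_cases hw : w ∈ S
    · exact hcon w hw
    · exact hx w hw
  obtain ⟨w₁, hw₁, hx₁⟩ := hne
  obtain ⟨w₀, hw₀, hmax⟩ := S.exists_max_image (fun w => ValuationRing.valuation R K (x w))
    ⟨w₁, hw₁⟩
  have hx₀ : x w₀ ≠ 0 := by
    intro h
    have h1 := hmax w₁ hw₁
    rw [h, map_zero] at h1
    have h2 := le_antisymm h1 zero_le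
    rw [map_eq_zero] at h2
    exact hx₁ h2
  have hdiv : ∀ w, ∃ c : R, algebraMap R K c = x w / x w₀ := by
    intro w
    by_cases hw : w ∈ S
    · have h1 : ValuationRing.valuation R K (x w / x w₀) ≤ 1 := by
        rw [map_div₀]
        exact div_le_one_of_le₀ (hmax w hw) zero_le
      exact (ValuationRing.mem_integer_iff R K _).1 h1
    · exact ⟨0, by rw [hx w hw, zero_div, map_zero]⟩
  choose c hc using hdiv
  refine ⟨w₀, hw₀, hx₀, c, fun w => ?_, ?_⟩
  · rw [hc, mul_div_cancel₀ _ hx₀]
  · apply IsFractionRing.injective R K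
    rw [hc, div_self hx₀, map_one]

/-- Pivot data. -/
def Piv (N : Submodule R (Ω → K)) (P : Finset Ω) (a : K) : Prop :=
  ∃ G : Ω → Ω → R, ∀ j ∈ P, (fun w => a * algebraMap R K (G j w)) ∈ N ∧ G j j = 1 ∧
    ∀ i ∈ P, i ≠ j → G j i = 0

theorem Piv_scale {N : Submodule R (Ω → K)} {P : Finset Ω} {a : K} (h : Piv N P a) (c : R) :
    Piv N P (algebraMap R K c * a) := by
  obtain ⟨G, hG⟩ := h
  refine ⟨G, fun j hj => ⟨?_, (hG j hj).2⟩⟩
  have : (fun w : Ω => algebraMap R K c * a * algebraMap R K (G j w)) =
      c • fun w => a * algebraMap R K (G j w) := by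
    funext w
    rw [Pi.smul_apply, Algebra.smul_def]
    ring
  rw [this]
  exact Submodule.smul_mem _ _ (hG j hj).1

/-- Elimination of the pivots. -/
theorem elim {N : Submodule R (Ω → K)} {P : Finset Ω} {a : K} {G : Ω → Ω → R}
    (hG : ∀ j ∈ P, (fun w => a * algebraMap R K (G j w)) ∈ N ∧ G j j = 1 ∧
      ∀ i ∈ P, i ≠ j → G j i = 0) (g : Ω → R) :
    (fun w => a * algebraMap R K (∑ j ∈ P, g j * G j w)) ∈ N ∧
      ∀ i ∈ P, g i - ∑ j ∈ P, g j * G j i = 0 := by
  classical
  constructor
  · have : (fun w : Ω => a * algebraMap R K (∑ j ∈ P, g j * G j w)) =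
        ∑ j ∈ P, g j • fun w => a * algebraMap R K (G j w) := by
      funext w
      rw [Finset.sum_apply, map_sum, Finset.mul_sum]
      refine Finset.sum_congr rfl (fun j _ => ?_)
      rw [Pi.smul_apply, Algebra.smul_def, map_mul]
      ring
    rw [this]
    exact Submodule.sum_mem _ (fun j hj => Submodule.smul_mem _ _ (hG j hj).1)
  · intro i hi
    rw [Finset.sum_eq_single i]
    · rw [(hG i hi).2.1, mul_one, sub_self]
    · intro j hj hji
      rw [(hG j hj).2.2 i hi hji.symm, mul_zero]
    · intro h
      exact absurd hi h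

/-- Two submodules with the same reductions at all scales are equal. -/
theorem key {S : Finset Ω} {N N' : Submodule R (Ω → K)} (hle : N ≤ N')
    (hS : ∀ f ∈ N', ∀ w, w ∉ S → f w = 0) (hgr : ∀ a : K, a ≠ 0 → gr N' a ≤ gr N a) :
    N = N' := by
  classical
  by_contra hne
  obtain ⟨x₀, hx₀, hx₀N⟩ : ∃ x ∈ N', x ∉ N := by
    by_contra hcon
    push Not at hcon
    exact hne (le_antisymm hle hcon)
  have main : ∀ m : ℕ, ∃ (P : Finset Ω) (a : K) (g : Ω → R), P ⊆ S ∧ P.card = m ∧ a ≠ 0 ∧
      Piv N P a ∧ (fun w => a * algebraMap R K (g w)) ∈ N' ∧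
      (fun w => a * algebraMap R K (g w)) ∉ N := by
    intro m
    induction m with
    | zero =>
      have h0 : x₀ ≠ 0 := by
        rintro rfl
        exact hx₀N (zero_mem _)
      obtain ⟨w₀, -, hw₀, h, hh, -⟩ := exists_top (R := R) S x₀ (hS x₀ hx₀) h0
      refine ⟨∅, x₀ w₀, h, Finset.empty_subset _, rfl, hw₀,
        ⟨fun _ _ => 0, fun j hj => absurd hj (Finset.notMem_empty j)⟩, ?_, ?_⟩
      · have : (fun w => x₀ w₀ * algebraMap R K (h w)) = x₀ := by
          funext w
          exact (hh w).symm
        rwa [this]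
      · have : (fun w => x₀ w₀ * algebraMap R K (h w)) = x₀ := by
          funext w
          exact (hh w).symm
        rwa [this]
    | succ m ih =>
      obtain ⟨P, a, g, hPS, hPm, ha, ⟨G, hG⟩, hx, hxN⟩ := ih
      obtain ⟨he1, he2⟩ := elim hG g
      set g' : Ω → R := fun w => g w - ∑ j ∈ P, g j * G j w with hg'
      have hx'eq : (fun w => a * algebraMap R K (g' w)) =
          (fun w => a * algebraMap R K (g w)) -
            fun w => a * algebraMap R K (∑ j ∈ P, g j * G j w) := by
        funext w
        rw [Pi.sub_apply, hg', map_sub, mul_sub]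
      have hx' : (fun w => a * algebraMap R K (g' w)) ∈ N' := by
        rw [hx'eq]
        exact Submodule.sub_mem _ hx (hle he1)
      have hx'N : (fun w => a * algebraMap R K (g' w)) ∉ N := by
        intro h
        apply hxN
        rw [hx'eq] at h
        have := Submodule.add_mem _ h he1
        rwa [sub_add_cancel] at this
      have h0 : (fun w => a * algebraMap R K (g' w)) ≠ 0 := by
        intro h
        rw [h] at hx'N
        exact hx'N (zero_mem _)
      obtain ⟨w₀, hw₀S, hw₀, h, hh, hh1⟩ :=
        exists_top (R := R) S _ (hS _ hx') h0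
      set b : K := a * algebraMap R K (g' w₀) with hb
      have hxb : (fun w => b * algebraMap R K (h w)) = fun w => a * algebraMap R K (g' w) := by
        funext w
        exact (hh w).symm
      have hw₀P : w₀ ∉ P := by
        intro hP
        apply hw₀
        change a * algebraMap R K (g' w₀) = 0
        rw [hg']
        change a * algebraMap R K (g w₀ - ∑ j ∈ P, g j * G j w₀) = 0
        rw [he2 w₀ hP, map_zero, mul_zero]
      have hhP : ∀ i ∈ P, h i = 0 := by
        intro i hi
        have h3 := hh i
        have h4 : g' i = 0 := he2 i hi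
        have h5 : b * algebraMap R K (h i) = 0 := by
          rw [← h3, h4, map_zero, mul_zero]
        rcases mul_eq_zero.1 h5 with h6 | h6
        · exact absurd h6 hw₀
        · exact IsFractionRing.injective R K (by rw [h6, map_zero])
      -- reduction
      have hred : (fun w => IsLocalRing.residue R (h w)) ∈ gr N' b :=
        ⟨h, by rw [hxb]; exact hx', fun w => rfl⟩
      obtain ⟨h', hh'N, hh'0⟩ := hgr b hw₀ hred
      have hh' : ∀ w, IsLocalRing.residue R (h' w) = IsLocalRing.residue R (h w) := hh'0
      have hPivb : ∀ j ∈ P, (fun w => b * algebraMap R K (G j w)) ∈ N ∧ G j j = 1 ∧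
          ∀ i ∈ P, i ≠ j → G j i = 0 := by
        intro j hj
        refine ⟨?_, (hG j hj).2⟩
        have : (fun w : Ω => b * algebraMap R K (G j w)) =
            (g' w₀) • fun w => a * algebraMap R K (G j w) := by
          funext w
          rw [Pi.smul_apply, Algebra.smul_def, hb]
          ring
        rw [this]
        exact Submodule.smul_mem _ _ (hG j hj).1
      obtain ⟨hf1, hf2⟩ := elim hPivb h'
      set h'' : Ω → R := fun w => h' w - ∑ j ∈ P, h' j * G j w with hh''
      have hh''N : (fun w => b * algebraMap R K (h'' w)) ∈ N := by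
        have : (fun w => b * algebraMap R K (h'' w)) =
            (fun w => b * algebraMap R K (h' w)) -
              fun w => b * algebraMap R K (∑ j ∈ P, h' j * G j w) := by
          funext w
          rw [Pi.sub_apply, hh'', map_sub, mul_sub]
        rw [this]
        exact Submodule.sub_mem _ hh'N hf1
      have hunit : IsUnit (h'' w₀) := by
        rw [← IsLocalRing.residue_ne_zero_iff_isUnit]
        have h6 : IsLocalRing.residue R (h'' w₀) = 1 := by
          rw [hh'']
          change IsLocalRing.residue R (h' w₀ - ∑ j ∈ P, h' j * G j w₀) = 1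
          rw [map_sub, hh' w₀, hh1, map_one, map_sum, Finset.sum_eq_zero, sub_zero]
          intro j hj
          rw [map_mul, hh' j, hhP j hj, map_zero, zero_mul]
        rw [h6]
        exact one_ne_zero
      obtain ⟨u, hu⟩ := hunit
      set k₀ : Ω → R := fun w => (↑u⁻¹ : R) * h'' w with hk₀
      have hk₀N : (fun w => b * algebraMap R K (k₀ w)) ∈ N := by
        have : (fun w => b * algebraMap R K (k₀ w)) =
            (↑u⁻¹ : R) • fun w => b * algebraMap R K (h'' w) := by
          funext w
          rw [Pi.smul_apply, Algebra.smul_def, hk₀, map_mul]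
          ring
        rw [this]
        exact Submodule.smul_mem _ _ hh''N
      have hk₀1 : k₀ w₀ = 1 := by
        change (↑u⁻¹ : R) * h'' w₀ = 1
        rw [← hu, Units.inv_mul]
      have hk₀P : ∀ i ∈ P, k₀ i = 0 := by
        intro i hi
        change (↑u⁻¹ : R) * h'' i = 0
        have : h'' i = 0 := hf2 i hi
        rw [this, mul_zero]
      refine ⟨insert w₀ P, b, h, ?_, ?_, hw₀, ?_, ?_, ?_⟩
      · intro w hw
        rcases Finset.mem_insert.1 hw with rfl | hw
        · exact hw₀S
        · exact hPS hw
      · rw [Finset.card_insert_of_notMem hw₀P, hPm]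
      · refine ⟨fun j w => if j = w₀ then k₀ w else G j w - G j w₀ * k₀ w, ?_⟩
        intro j hj
        by_cases hjw : j = w₀
        · simp only [hjw, if_true]
          refine ⟨hk₀N, hk₀1, ?_⟩
          intro i hi hij
          rcases Finset.mem_insert.1 hi with h7 | h7
          · exact absurd h7 hij
          · exact hk₀P i h7
        · have hjP : j ∈ P := (Finset.mem_insert.1 hj).resolve_left hjw
          simp only [hjw, if_false]
          refine ⟨?_, ?_, ?_⟩
          · have : (fun w => b * algebraMap R K (G j w - G j w₀ * k₀ w)) =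
                (fun w => b * algebraMap R K (G j w)) -
                  G j w₀ • fun w => b * algebraMap R K (k₀ w) := by
              funext w
              rw [Pi.sub_apply, Pi.smul_apply, Algebra.smul_def, map_sub, map_mul]
              ring
            rw [this]
            exact Submodule.sub_mem _ (hPivb j hjP).1 (Submodule.smul_mem _ _ hk₀N)
          · rw [(hPivb j hjP).2.1, hk₀P j hjP, mul_zero, sub_zero]
          · intro i hi hij
            rcases Finset.mem_insert.1 hi with h7 | h7
            · rw [h7, hk₀1, mul_one, sub_self]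
            · rw [(hPivb j hjP).2.2 i h7 hij, hk₀P i h7, mul_zero, sub_zero]
      · rw [hxb]
        exact hx'
      · rw [hxb]
        exact hx'N
  obtain ⟨P, a, g, hPS, hPm, -⟩ := main (S.card + 1)
  have := Finset.card_le_card hPS
  omega

end key

variable {Ω E K R : Type*} [Group E] [MulAction E Ω] [Field K] [CommRing R] [IsDomain R]
  [ValuationRing R] [Algebra R K] [IsFractionRing R K]

/-- A bound over the residue field is a bound over the valuation ring. -/
theorem Bd_red {H : Set E} {S : Set Ω} (hS : S.Finite) {n : ℕ}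
    (h : Bd (IsLocalRing.ResidueField R) (IsLocalRing.ResidueField R) H S n) :
    Bd R K H S n := by
  classical
  intro N hN r
  have hfs : FaithfulSMul R K := inferInstance
  have hchoose : ∀ i ∈ steps N r, ∃ a : K, a ≠ 0 ∧ gr (N i) a < gr (N (i + 1)) a := by
    intro i hi
    rw [mem_steps] at hi
    by_contra hcon
    push Not at hcon
    apply hi.2
    refine key (S := hS.toFinset) (hN.mono (Nat.le_succ i)) ?_ ?_
    · intro f hf w hw
      exact hN.supp _ f hf w (fun h' => hw (hS.mem_toFinset.2 h'))
    · intro a ha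
      have h1 := hcon a ha
      have h2 : gr (N i) a ≤ gr (N (i + 1)) a := gr_mono (hN.mono (Nat.le_succ i)) a
      by_contra h3
      exact h1 (lt_of_le_not_ge h2 h3)
  choose! a ha hlt using hchoose
  set P : Submodule (IsLocalRing.ResidueField R) (Ω → IsLocalRing.ResidueField R) → Prop :=
    fun W => (∀ f ∈ W, ∀ w, w ∉ S → f w = 0) ∧ ∀ g ∈ H, ∀ f ∈ W, act g f ∈ W with hP
  have hPgr : ∀ (b : K), b ≠ 0 → ∀ i, P (gr (N i) b) := by
    intro b hb i
    refine ⟨fun f hf w hw => gr_supp (hN.supp i) hb hf w hw, fun g hg f hf => ?_⟩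
    exact gr_act (hN.stab g hg i) hf
  have hcmp : ∀ i ∈ steps N r, ∀ j ∈ steps N r, i < j →
      gr (N (i + 1)) (a i) ≤ gr (N j) (a j) ∨ gr (N (j + 1)) (a j) ≤ gr (N i) (a i) := by
    intro i hi j hj hij
    have hai := ha i hi
    have haj := ha j hj
    rcases ValuationRing.isInteger_or_isInteger R (a j / a i) with ⟨c, hc⟩ | ⟨c, hc⟩
    · left
      refine gr_scale c ?_ ?_
      · rw [hc, div_mul_cancel₀ _ hai]
      · intro f hf
        exact Submodule.smul_mem _ _ (hN.mono hij hf)
    · rw [inv_div] at hc
      by_cases hcu : IsUnit c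
      · left
        obtain ⟨u, rfl⟩ := hcu
        refine gr_scale (↑u⁻¹ : R) ?_ ?_
        · have h1 : algebraMap R K (↑u⁻¹ : R) * algebraMap R K (↑u : R) = 1 := by
            rw [← map_mul, Units.inv_mul, map_one]
          rw [hc] at h1
          field_simp at h1 ⊢
          linear_combination -h1
        · intro f hf
          exact Submodule.smul_mem _ _ (hN.mono hij hf)
      · right
        refine gr_scale c ?_ ?_
        · rw [hc, div_mul_cancel₀ _ haj]
        · intro f hf
          exact hN.mono (Nat.zero_le i)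
            (hN.red (j + 1) c ((IsLocalRing.mem_maximalIdeal c).2 hcu) f hf)
  obtain ⟨N', r', hmono, hPN, hcard, -⟩ := chain_build P
    (by
      refine ⟨fun f hf w _ => ?_, fun g _ f hf => ?_⟩
      · rw [(Submodule.mem_bot _).1 hf]
        rfl
      · rw [(Submodule.mem_bot _).1 hf]
        exact zero_mem _)
    (fun i => gr (N i) (a i)) (fun i => gr (N (i + 1)) (a i)) (steps N r).card (steps N r) rfl
    (fun i hi => ⟨hPgr _ (ha i hi) _, hPgr _ (ha i hi) _, hlt i hi⟩)
    (by
      intro i hi j hj hij
      rcases lt_or_gt_of_ne hij with h1 | h1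
      · exact hcmp i hi j hj h1
      · exact (hcmp j hj i hi h1).symm)
  refine le_trans hcard (h N' ⟨hmono, fun i => (hPN i).1, ?_, fun g hg i => (hPN i).2 g hg⟩ r')
  intro i c hc f hf
  have hc0 : c = 0 := by
    by_contra hne
    exact (IsLocalRing.mem_maximalIdeal c).1 hc (IsUnit.mk0 c hne)
  rw [hc0, zero_smul]
  exact zero_mem _

end GUM.Red
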