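import Pool.Agent.Helper60.GUM.St

/-!
Project GUM (MP_0bd1d1_al), module STA: first stage for an isotropic weight.
-/

set_option autoImplicit false

namespace GUM

open Module OG

variable {k F X : Type*} [Field k] [Field F] [Algebra k F] [AddCommGroup X] [Module F X]
  {σ : F ≃ₐ[k] F} {B : HForm σ X}

private theorem smul_jn_STA (g : X ≃ₗ[F] X) {p : X} (hg : g p = p) (A : Submodule F X) :
    g • jn p A = jn p (g • A) := by
  change g • (Submodule.span F {p} ⊔ A) = Submodule.span F {p} ⊔ g • A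
  rw [smul_def, smul_def, Submodule.map_sup, Submodule.map_span, Set.image_singleton]
  rw [LinearEquiv.coe_coe, hg]

variable (R K : Type*) [Field K] [CommRing R] [Algebra R K] [IsLocalRing R]

/-- STA: the first stage for an isotropic weight. -/
theorem hSta (hG : StGrp B) (hH : StHyp B) (hT : StTyp B) (hB : StStb R K B) :
    StSta R K B := by
  intro m hIH Z y hZ hy hy0 hyq hm j p' hp'
  obtain ⟨y', h⟩ := hH.exHP Z y hZ hy hy0 hyq
  have hfr : finrank F (pp B Z y y') + 2 = finrank F Z := hH.fr Z y y' h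
  have hsub : Gr B (pp B Z y y') ⊆ GrF B Z y := fun g hg =>
    ⟨hG.mono _ _ inf_le_left hg, (hG.fix Z y y' g hg).1⟩
  have hthr : ∀ i, Bd R K (GrF B Z y) {A | A ∈ Sk B Z i ∧ y ∈ A}
      (3 ^ (finrank F Z - 2)) := by
    intro i
    have h1 := hIH (pp B Z y y') (by omega) (hH.nd Z y y' h hZ) (i - 1)
    have h2 := Bd_image (jn y) (hG.stb (pp B Z y y') (i - 1))
      (fun g hg w _ => (smul_jn_STA g (hG.fix Z y y' g hg).1 w).symm) h1
    refine Bd_mono h2 hsub ?_ (le_of_eq (by rw [show finrank F (pp B Z y y') =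
      finrank F Z - 2 by omega]))
    rintro A ⟨hA, hyA⟩
    obtain ⟨i', hi', A', hA', hAA⟩ := hT.t1 Z y y' i A h hA hyA
    subst hi'
    exact ⟨A', hA', hAA.symm⟩
  have hst : ∀ i, Stb (GrF B Z y) (Sk B Z i) := fun i g hg => hG.stb Z i g hg.1
  have hBB : Bd R K (GrF B Z y) {A | A ∈ Sk B Z (j - 1) ∧ ∀ a ∈ A, B.f a y = 0}
      (3 ^ (finrank F Z - 2) + (3 ^ (finrank F Z - 2) + 3 ^ (finrank F Z - 4))) := by
    refine Bd_mono (Bd_union (hG.smem Z y _ (hst (j - 1))) (hthr (j - 1))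
      (hB m hIH Z y y' hZ h hm (j - 1))) subset_rfl ?_ le_rfl
    rintro A ⟨hA, hAy⟩
    by_cases hyA : y ∈ A
    · exact Or.inl ⟨hA, hyA⟩
    · exact Or.inr ⟨hA, hyA, hAy⟩
  have hjn : Bd R K (GrF B Z y) (jn p' '' {A | A ∈ Sk B Z (j - 1) ∧ ∀ a ∈ A, B.f a y = 0})
      (3 ^ (finrank F Z - 2) + (3 ^ (finrank F Z - 2) + 3 ^ (finrank F Z - 4))) :=
    Bd_image (jn p') (hG.sperp Z y _ (hst (j - 1)))
      (fun g hg w _ => (smul_jn_STA g (hp' g hg.1) w).symm) hBB
  refine Bd_mono (Bd_union (hG.smem Z y _ (hst j)) (hthr j) hjn) subset_rfl subset_rfl ?_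
  omega

end GUM
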