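import Pool.Agent.Helper60.GUM.M_GRP
import Pool.Agent.Helper60.GUM.M_IND
import Pool.Agent.Helper60.GUM.M_EXT
import Pool.Agent.Helper60.GUM.Fin
import Pool.Agent.Helper36.GUM.M_WIT
import Pool.Agent.Helper10.GUM.M_TOR
import Pool.Agent.Helper24.GUM.M_HYP
import Pool.Agent.Helper78.GUM.M_TYP
import Pool.Agent.Helper9.GUM.M_WTS
import Pool.Agent.Helper99.GUM.M_DEC
import Pool.Agent.Helper63.GUM.M_VAN
import Pool.Agent.Helper30.GUM.M_CLF
import Pool.Agent.Helper69.GUM.M_STB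
import Pool.Agent.Helper60.GUM.M_STA
import Pool.Agent.Helper28.GUM.M_STP
import Pool.Agent.Helper55.GUM.M_FF
import Pool.Agent.Helper10.GUM.M_SUM
import Pool.Agent.Helper36.GUM.M_BAS
import Pool.Agent.Helper86.GUM.M_CMP
import Pool.Agent.Helper78.GUM.M_POW
import Pool.Agent.Helper72.GUM.M_ROT
import Pool.Agent.Helper24.GUM.M_RAD
import Pool.Agent.Helper69.GUM.M_STAR
import Pool.Agent.Helper19.GUM.M_KEY
import Pool.Agent.Helper82.GUM.M_ONE
import Pool.Agent.Helper25.GUM.M_CH1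
import Pool.Agent.Helper87.GUM.M_CH2
import Pool.Agent.Helper61.GUM.M_CH3
import Pool.Agent.Helper45.GUM.M_ACT
import Pool.Agent.Helper10.GUM.M_BL0
import Pool.Agent.Helper70.GUM.M_BL1
import Pool.Agent.Helper36.GUM.M_BL2
import Pool.Agent.Helper75.GUM.M_XB
import Pool.Agent.Helper6.GUM.M_SND
import Pool.Agent.Helper28.GUM.M_GEN3
import Pool.Agent.Helper32.GUM.M_FIN3
import Pool.Agent.Helper22.GUM.M_EA
import Pool.Agent.Helper86.GUM.M_WTI
import Pool.Agent.Helper78.GUM.M_EXI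
import Pool.Agent.Helper10.GUM.M_GENF
import Pool.Agent.Helper43.GUM.M_UU
import Pool.Agent.Helper82.GUM.M_G3C
import Pool.Agent.Helper1.GUM.M_M2
import Pool.Agent.Helper55.GUM.M_JB
import Pool.Agent.Helper72.GUM.M_BASF

/-!
Project GUM (MP_0bd1d1_al): assembly.
-/

set_option autoImplicit false

namespace GUM

open Module OG

universe u v w z y

variable {k : Type u} {F : Type v} {X : Type y} [Field k] [Field F] [Algebra k F]
  [AddCommGroup X] [Module F X] {σ : F ≃ₐ[k] F} {B : HForm σ X} {R : Type w} {K : Type z}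
  [Field K] [CommRing R] [Algebra R K]

theorem main_ind [Finite F] [IsDomain R] [ValuationRing R] [IsFractionRing R K]
    [FiniteDimensional F X] (hQ : UN.QE σ) (χ : AddChar F R) (hχ : ∃ c, χ c ≠ 1)
    (hu : IsUnit ((Nat.card F : ℕ) : R)) (hGen : StGen R K B) (hBas : StBas R K B) :
    StInd R K B := by
  have hG : StGrp B := hGrp
  have hW : StWit B := Pool.Agent.Helper36.GUM.hWit hQ
  have hTo : StTor B := Pool.Agent.Helper10.GUM.hTor hQ
  have hH : StHyp B := Pool.Agent.Helper24.GUM.hHyp hQ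
  have hT : StTyp B := Pool.Agent.Helper78.GUM.hTyp hQ
  have hWt : StWts R K B χ := Pool.Agent.Helper9.GUM.hWts R K hQ hG hH χ hχ
  have hD : StDec R K B χ := Pool.Agent.Helper99.GUM.hDec hH χ hχ hu
  have hV : StVan R K B χ := Pool.Agent.Helper63.GUM.hVan hH hT χ hWt
  have hC : StClf R K B χ := Pool.Agent.Helper30.GUM.hClf hG χ hD
  have hSb : StStb R K B := Pool.Agent.Helper69.GUM.hStb R K hG hW hH hT χ hWt hV hC
  have hSa : StSta R K B := hSta R K hG hH hT hSb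
  have hSp : StStp R K B :=
    Pool.Agent.Helper28.GUM.hStp hQ hG hW hTo hH hT χ hWt hV hC hSa
  exact hInd hH hSp hGen hBas

theorem genf : Pool.Agent.Helper70.GUT.StGENF.{u, v, w, z, y} :=
  Pool.Agent.Helper10.GUT.hGENF Pool.Agent.Helper22.GUT.hEA Pool.Agent.Helper86.GUT.hWTI
    Pool.Agent.Helper78.GUT.hEXI

theorem basf : Pool.Agent.Helper70.GUT.StBASF.{u, v, w, z, y} := by
  have hCMP : Pool.Agent.Helper70.GUM.StCMP.{u, v, w, z} := Pool.Agent.Helper86.GUM.hCMP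
  have hPOW : Pool.Agent.Helper70.GUM.StPOW.{u, v, w, z} := Pool.Agent.Helper78.GUM.hPOW hCMP
  have hSTAR : Pool.Agent.Helper70.GUM.StSTAR.{u, v, w, z} :=
    Pool.Agent.Helper69.GUM.hSTAR Pool.Agent.Helper72.GUM.hROT Pool.Agent.Helper24.GUM.hRAD
  have hONE : Pool.Agent.Helper70.GUM.StONE.{w, z} := Pool.Agent.Helper82.GUM.hONE
  have hKEY : Pool.Agent.Helper70.GUM.StKEY.{u, v, w, z} := Pool.Agent.Helper19.GUM.hKEY
  have hCH1 : Pool.Agent.Helper70.GUM.StCH1.{u, v, w, z} :=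
    Pool.Agent.Helper25.GUM.hCH1 hPOW hSTAR hKEY hONE
  have hCH2 : Pool.Agent.Helper70.GUM.StCH2.{u, v, w, z} :=
    Pool.Agent.Helper87.GUM.hCH2 hPOW hCH1
  have hCH3 : Pool.Agent.Helper70.GUM.StCH3.{u, v, w, z} :=
    Pool.Agent.Helper61.GUM.hCH3 hONE hCH2
  have hBL0 : Pool.Agent.Helper70.GUM.StBL0.{u, v, w, z, y, y} := Pool.Agent.Helper10.GUM.hBL0
  have hBL1 : Pool.Agent.Helper70.GUM.StBL1.{u, v, w, z, y, y} :=
    Pool.Agent.Helper70.GUM.B1.hBL1 hBL0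
  have hBL2 : Pool.Agent.Helper70.GUM.StBL2.{u, v, w, z, y, y} :=
    Pool.Agent.Helper36.GUM.hBL2 hBL0
  have hXB : Pool.Agent.Helper70.GUM.StXB.{u, v, w, z} := Pool.Agent.Helper75.GUM.hXB
  have hSND : Pool.Agent.Helper70.GUM.StSND.{u, v, w, z, y, y} :=
    Pool.Agent.Helper6.GUM.hSND hXB hBL1 hBL2
  have hGEN3 : Pool.Agent.Helper70.GUM.StGEN3.{u, v, w, z, y, y} :=
    Pool.Agent.Helper28.GUM.hGEN3 hBL0
  have hACT : Pool.Agent.Helper70.GUM.StACT.{u, v, z, y, y} := Pool.Agent.Helper45.GUM.hACT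
  have hSUM : Pool.Agent.Helper70.GUM.StSUM.{u, v, w, z} := Pool.Agent.Helper10.GUM.hSUM
  have hBAS : Pool.Agent.Helper70.GUM.StBAS.{u, v, w, z} := Pool.Agent.Helper36.GUM.hBAS
  have hFIN3 : Pool.Agent.Helper70.GUM.StFIN3.{u, v, w, z, y, y} :=
    Pool.Agent.Helper32.GUM.hFIN3 hSUM hBAS hPOW hONE hCH3 hACT hSND hGEN3
  have hFF : Pool.Agent.Helper70.GUM.StFF.{u, v} := Pool.Agent.Helper55.GUM.hFF
  have hUU : Pool.Agent.Helper70.GUT.StUU.{u, v, y} := Pool.Agent.Helper43.GUT.hUU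
  have hG3C : Pool.Agent.Helper70.GUT.StG3C.{u, v, y} := Pool.Agent.Helper82.GUT.hG3C
  have hM2 : Pool.Agent.Helper70.GUT.StM2.{u, v, w, z, y} := Pool.Agent.Helper1.GUT.hM2
  have hJB : Pool.Agent.Helper70.GUT.StJB.{u, v, y} := Pool.Agent.Helper55.GUT.hJB
  exact @Pool.Agent.Helper72.GUT.hBASF.{u, v, w, z, y} hFF hFIN3 hUU hG3C hM2 hJB

end GUM
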