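import Pool.Agent.Helper60.GUM.Defs

/-!
Project GUM (MP_0bd1d1_al): statements of the modules.

THEOREM.  `F / k` quadratic extension of finite fields (`UN.QE σ`), `B` a hermitian form on the `F`-space `X`, `Y ≤ X` with
`ND B Y`.  For every `j` the functions on the totally isotropic `j`-subspaces of `Y` satisfy `Bd R K (Gr B Y) (Sk B Y j) (3 ^ dim Y)`.

Every module `M_XX.lean` proves `theorem hXX : StXX ..` (with the hypotheses named in the docstring).  All modules are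
independent.  Everything is the hermitian copy of the files `Pool/Agent/Helper60/OG/*.lean` (orthogonal case): copy and adapt.
`f x y` is linear in `x` and semilinear in `y`.
-/

set_option autoImplicit false

namespace GUM

open Module OG

section geo

variable {k F X : Type*} [Field k] [Field F] [Algebra k F] [AddCommGroup X] [Module F X] {σ : F ≃ₐ[k] F}

/-- MODULE GRP (helper60 does it). -/
structure StGrp (B : HForm σ X) : Prop where
  one : ∀ Y, (1 : X ≃ₗ[F] X) ∈ Gr B Y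
  mul : ∀ Y, ∀ g ∈ Gr B Y, ∀ h ∈ Gr B Y, g * h ∈ Gr B Y
  inv : ∀ Y, ∀ g ∈ Gr B Y, g⁻¹ ∈ Gr B Y
  mono : ∀ Z Y, Z ≤ Y → Gr B Z ⊆ Gr B Y
  mem : ∀ Y, ∀ g ∈ Gr B Y, ∀ x, g x ∈ Y ↔ x ∈ Y
  stb : ∀ Y j, Stb (Gr B Y) (Sk B Y j)
  heis : ∀ Y p v c (hp : B.f p p = 0) (hv : B.f v p = 0), p ∈ Y → v ∈ Y → Adm B v c → hE B p v c hp hv ∈ Gr B Y
  fix : ∀ Y p p', ∀ g ∈ Gr B (pp B Y p p'), g p = p ∧ g p' = p'
  finv : ∀ Z y, ∀ g ∈ GrF B Z y, g⁻¹ ∈ GrF B Z y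
  smem : ∀ Z y (S : Set (Submodule F X)), Stb (GrF B Z y) S → Stb (GrF B Z y) {A | A ∈ S ∧ y ∈ A}
  sperp : ∀ Z y (S : Set (Submodule F X)), Stb (GrF B Z y) S → Stb (GrF B Z y) {A | A ∈ S ∧ ∀ a ∈ A, B.f a y = 0}
  sjn : ∀ (H : Set (X ≃ₗ[F] X)) (p : X) (S : Set (Submodule F X)), (∀ g ∈ H, g p = p) → Stb H S → Stb H (jn p '' S)

/-- MODULE WIT (120 lines; theorem hWit (hQ : UN.QE σ) : StWit B). Witt's theorem for vectors.
Proof. Quasi-reflections: for `u ∈ Z` and `a + σ a + a σ(a) f(u,u) = 0` the map `x ↦ x + a f(x,u) u` is in `Gr B Z` (its inverse has the parameter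
`σ a`; model: `OG.Geo1.exists_refl`). (1) If `f y y = f y' y' = N` and `s = f(y, y - y') ≠ 0`: `u = y - y'`, `f(u,u) = s + σ s`, `a = -1/s` is
admissible and maps `y` to `y'`. (2) Otherwise `f(y,y') = N`. Find `z ∈ Z` with `f z z = N`, `f(y,z) ≠ N`, `f(z,y') ≠ N` and use (1) twice.
`N ≠ 0`: `z = λ y` with `λ σ λ = 1`, `λ ≠ 1` (`λ = σ t / t`, `σ t ≠ t`): `f(y,z) = σ λ N`, `f(z,y') = λ N`. `N = 0`: there is `w ∈ Z` with
`f(w,y) ≠ 0` and `f(w,y') ≠ 0` (take `w1` for `y`, `w2` for `y'` from `ND`; one of `w1`, `w2`, `w1 + w2` works), and `z = w + c y` with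
`f(z,z) = f(w,w) + (x + σ x) = 0` for `x = c f(y,w)` (every `a` with `σ a = a` is `x + σ x`: take `t` with `t + σ t ≠ 0`, `x = a t/(t + σ t)`;
`t` = an element with `σ t ≠ t` or `t = 1`); `f(z,y) = f(w,y)`, `f(z,y') = f(w,y')` as `f(y,y') = 0`. -/
def StWit (B : HForm σ X) : Prop := ∀ Z : Submodule F X, ND B Z → ∀ y ∈ Z, ∀ y' ∈ Z, y ≠ 0 → y' ≠ 0 → B.f y y = B.f y' y' → ∃ g ∈ Gr B Z, g y = y'

/-- MODULE TOR (90 lines; theorem hTor : StTor B). The torus. Model: `OG.Geo1.exists_tor`.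
`t x = x + ((c - 1) f(x,p')) p + (((σ c)⁻¹ - 1) f(x,p)) p'`. (Uses `σ (σ c) = c`: hypothesis `(hQ : UN.QE σ)`.) -/
def StTor (B : HForm σ X) : Prop := ∀ Y p p', HP B Y p p' → ∀ c : F, c ≠ 0 → ∃ t ∈ Gr B Y, t p = c • p ∧ t p' = (σ c)⁻¹ • p' ∧
  ∀ x, B.f x p = 0 → B.f x p' = 0 → t x = x

/-- MODULE HYP (140 lines; theorem hHyp [FiniteDimensional F X] (hQ : UN.QE σ) : StHyp B). Models: `OG.Geo2.exists_HP`, `decomp`, `pp_ND`, `pp_finrank`;
`aniso`: `Z ∩ ker (B.l y)` for `y ∈ Z`, `f y y ≠ 0`: `x = (x - (f x y/f y y) y) + (f x y/f y y) y` (models `ker_ND`, `ker_finrank`).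
`adm`: for every `v` there is `c` with `c + σ c = - f v v` (`- f v v` is fixed by `σ`; see WIT). `exHP`: take `y` with `f p y = 1` and `p' = y + c p`. -/
structure StHyp (B : HForm σ X) : Prop where
  adm : ∀ v, ∃ c, Adm B v c
  exHP : ∀ Y p, ND B Y → p ∈ Y → p ≠ 0 → B.f p p = 0 → ∃ p', HP B Y p p'
  nd : ∀ Y p p', HP B Y p p' → ND B Y → ND B (pp B Y p p')
  fr : ∀ Y p p', HP B Y p p' → finrank F (pp B Y p p') + 2 = finrank F Y
  aniso : ∀ Z y, y ∈ Z → B.f y y ≠ 0 → ND B Z →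
    ND B (Z ⊓ LinearMap.ker (B.l y)) ∧ finrank F (Z ⊓ LinearMap.ker (B.l y) : Submodule F X) + 1 = finrank F Z

/-- MODULE TYP (200 lines; theorem hTyp [FiniteDimensional F X] : StTyp B). The three types of totally isotropic subspaces. Models: `OG.Geo3.type1`, `type2`, `type3`.
In `t2` and `t3` the equation holds for every admissible `c` resp. for some admissible `c`. `t2`: `e(v,c) a = a - f(a,v) p` for `a ∈ Z`, so `v` with
`f(π w, v) = - f(w, p')` for `w ∈ W` where `π w = w - f(w,p') p`; as `f` is semilinear in `v`, take a functional on `W.map π` and represent it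
(nondegenerate, finite dimension: the map `v ↦ f(·, v)` from `Z` to the dual of `W.map π`, `σ`-semilinear, is surjective: e.g. extend the functional to `Z` and use that
`v ↦ (x ↦ f(x,v))` is injective from `Z` to `Dual F Z`; or work with the linear map `a ↦ f(a, ·)` as in the model and apply `σ`). `t3`: `w ∈ W` with `f(w,p) = 1`,
`v = w - p' - f(w,p') p`, `c = f(w,p')`, `e(v,c) p' = w`. -/
structure StTyp (B : HForm σ X) : Prop where
  t1 : ∀ Y p p' j W, HP B Y p p' → W ∈ Sk B Y j → p ∈ W → ∃ i, j = i + 1 ∧ ∃ A ∈ Sk B (pp B Y p p') i, W = jn p A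
  t2 : ∀ Y p p' j W, ND B Y → ∀ h : HP B Y p p', W ∈ Sk B Y j → p ∉ W → (∀ w ∈ W, B.f w p = 0) →
    ∃ v : ↥(pp B Y p p'), ∃ A ∈ Sk B (pp B Y p p') j, ∀ c, Adm B v.1 c → W = eV h v c • A
  t3 : ∀ Y p p' j W, ∀ h : HP B Y p p', W ∈ Sk B Y j → ∀ w ∈ W, B.f w p ≠ 0 →
    ∃ i, j = i + 1 ∧ ∃ v : ↥(pp B Y p p'), ∃ c, Adm B v.1 c ∧ ∃ A ∈ Sk B (pp B Y p p') i, W = eV h v c • jn p' A

end geo

section wts

variable {k F X : Type*} [Field k] [Field F] [Algebra k F] [AddCommGroup X] [Module F X] {σ : F ≃ₐ[k] F}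
  (R K : Type*) [Field K] [CommRing R] [Algebra R K]

/-- MODULE WTS (200 lines; theorem hWts [IsDomain R] [IsFractionRing R K] [FiniteDimensional F X] (hG : StGrp B) (hH : StHyp B) (χ) (hχ : ∃ c, χ c ≠ 1) : StWts R K B χ).
Weight functions. Models: `OG.Wt_translate`, `OG.Wt_zero_on`, `OG.Geo3.stab1`, `stab2`, `stab3`, `OG.c1`, `c2`, `c3`, `OG.WX_Gr`, `OG.WX_tor`.
`tr`: `act (e v c) f (e v c • W) = f W`. `z`: if `e(v,c_v) • W = W` for all `v` in an `F`-subspace `U` of `Z = pp B Y p p'` (with some admissible `c_v`) and `f W ≠ 0` then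
`χ (f(v,y)) = 1` for `v ∈ U`, so `f(v,y) = 0` (`v` can be scaled). `w1`: `e(v,c)` fixes `jn p A` for all `v`. `w2`: `e(v,c)` fixes `A` if `f(a,v) = 0` for `a ∈ A`; so `f(v,y) = 0`
for all `v ∈ Z` orthogonal to `A`, and `y ∈ A` (`Z` nondegenerate, double orthogonal space; `y ∈ Z` is assumed). `w3`: `e(v,0)`, `v ∈ A`, fixes `jn p' A`. `cj`: for `g ∈ Gr B Z`:
`g e(v,c) g⁻¹ = e(g v,c)`. `tor`: for the torus element `t` of `StTor` with parameter `c`: `t e(v,d) t⁻¹ = e(σ(c) v, d c σ(c))`. `ti`: `e(0,c)` with `c + σ c = 0` are the elements of `Tg B p`. -/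
structure StWts (B : HForm σ X) (χ : AddChar F R) : Prop where
  tr : ∀ Y p p' (h : HP B Y p p') y (f : Submodule F X → K), f ∈ WU K h χ y → ∀ v c, Adm B v.1 c → ∀ W, f W = 0 → f (eV h v c • W) = 0
  w1 : ∀ Y p p' (h : HP B Y p p') y (f : Submodule F X → K), ND B Y → y ∈ pp B Y p p' → f ∈ WU K h χ y → ∀ A ≤ pp B Y p p', f (jn p A) ≠ 0 → y = 0
  w2 : ∀ Y p p' (h : HP B Y p p') y (f : Submodule F X → K), ND B Y → y ∈ pp B Y p p' → f ∈ WU K h χ y → ∀ A ≤ pp B Y p p', f A ≠ 0 → y ∈ A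
  w3 : ∀ Y p p' (h : HP B Y p p') y (f : Submodule F X → K) i, y ∈ pp B Y p p' → f ∈ WU K h χ y → ∀ A ∈ Sk B (pp B Y p p') i, f (jn p' A) ≠ 0 →
    ∀ a ∈ A, B.f a y = 0
  cj : ∀ Y p p' (h : HP B Y p p') y (f : Submodule F X → K), f ∈ WU K h χ y → ∀ g ∈ Gr B (pp B Y p p'), act g⁻¹ f ∈ WU K h χ (g⁻¹ y)
  tor : ∀ Y p p' (h : HP B Y p p') y (f : Submodule F X → K), f ∈ WU K h χ y → ∀ (c : F) (t : X ≃ₗ[F] X), c ≠ 0 → t ∈ Gr B Y → t p = c • p →
    t p' = (σ c)⁻¹ • p' → (∀ x, B.f x p = 0 → B.f x p' = 0 → t x = x) → act t⁻¹ f ∈ WU K h χ (c • y)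
  ti : ∀ Y p p' (h : HP B Y p p') y, WU K h χ y ≤ IT R K B p

/-- MODULE DEC (150 lines; theorem hDec [Finite F] [IsDomain R] [FiniteDimensional F X] (hH : StHyp B) (χ) (hχ : ∃ c, χ c ≠ 1) (hu : IsUnit ((Nat.card F : ℕ) : R)) : StDec R K B χ).
The decomposition of a module of `Tg B p`-invariant functions into weight spaces. Model: `OG.exists_decomp`.
Proof. For `v ∈ Z = pp B Y p p'` choose `c_v` admissible. `g y = ∑_{v ∈ Z} χ (-f(v,y)) • act (e(v,c_v)) f`. For `f ∈ M ≤ IT` the function `act (e(v,c)) f` does not depend on the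
admissible `c` (`e(v,c) e(0,d) = e(v,c+d)` by `hL_comp`, `e(0,d) ∈ Tg B p`). So `act (e(w,d)) (g y) = χ (f(w,y)) g y` (`e(w,d) e(v,c) = e(w+v, d+c-f(v,w))`, admissible).
`∑_{y ∈ Z} g y = |Z| f`: for `v ≠ 0` in `Z` there is `y₀ ∈ Z` with `χ (f(v,y₀)) ≠ 1` (`ND B Z`, scale), so `∑_y χ (-f(v,y)) = 0` (translation `y ↦ y + y₀`, `R` a domain). `|Z|` is a power of `|F|`. -/
def StDec (B : HForm σ X) (χ : AddChar F R) : Prop := ∀ Y p p' (h : HP B Y p p') (M : Submodule R (Submodule F X → K)), ND B Y →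
  M ≤ IT R K B p → (∀ v c, Adm B v.1 c → ∀ f ∈ M, act (eV h v c) f ∈ M) → ∀ f ∈ M, f ∈ ⨆ y : ↥(pp B Y p p'), M ⊓ WU K h χ y.1

/-- MODULE VAN (60 lines; theorem hVan [FiniteDimensional F X] (hH : StHyp B) (hT : StTyp B) (hW : StWts R K B χ) : StVan R K B χ). Model: `OG.vanish` and `van` in `OG.stageB`. -/
structure StVan (B : HForm σ X) (χ : AddChar F R) : Prop where
  v3 : ∀ Y p p' (h : HP B Y p p') y (f : Submodule F X → K) j, ND B Y → f ∈ WU K h χ y → f ∈ supS R K (Sk B Y j) →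
    (∀ A ∈ Sk B (pp B Y p p') (j - 1), f (jn p A) = 0) → (∀ A ∈ Sk B (pp B Y p p') j, f A = 0) →
    (∀ A ∈ Sk B (pp B Y p p') (j - 1), f (jn p' A) = 0) → f = 0
  v2 : ∀ Y p p' (h : HP B Y p p') y (f : Submodule F X → K) j, ND B Y → f ∈ WU K h χ y →
    f ∈ supS R K {A | A ∈ Sk B Y j ∧ p ∉ A ∧ ∀ a ∈ A, B.f a p = 0} → (∀ A ∈ Sk B (pp B Y p p') j, f A = 0) → f = 0

variable [IsLocalRing R]

/-- MODULE CLF (130 lines; theorem hClf (hG : StGrp B) (hD : StDec R K B χ) : StClf R K B χ). Clifford theory. Models: `OG.Bd_clifford`, `OG.cliff3`.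
Proof. `Mi = N i ⊓ IT`; it is stable under `eV h v c`, `Adm` (`eV` normalizes `Tg B p`: in fact it commutes with it, `hL_comp`). By `hD`, `M (i+1)` is the sum of the
`M (i+1) ⊓ WU y` and `WU y ≤ IT` (`e(0,c) ∈ ..`, the parameter `v = 0`), so `M (i+1) ≤ M i` if `N i ⊓ WU y = N (i+1) ⊓ WU y` for the representatives `y ∈ T`; then restrict to `B₀`. -/
def StClf (B : HForm σ X) (χ : AddChar F R) : Prop := ∀ Y p p' (h : HP B Y p p') (H : Set (X ≃ₗ[F] X)) (S : Set (Submodule F X))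
  (N : ℕ → Submodule R (Submodule F X → K)), ND B Y → Ch R H S N → (∀ v c, Adm B v.1 c → eV h v c ∈ H) →
  ∀ (T : Fin 3 → Finset X) (n : Fin 3 → ℕ),
  (∀ i, ∀ y ∈ T i, ∃ (H₀ : Set (X ≃ₗ[F] X)) (B₀ : Set (Submodule F X)), Bd R K H₀ B₀ (n i) ∧ H₀ ⊆ H ∧ Stb H₀ B₀ ∧
    (∀ g ∈ H₀, ∀ f : Submodule F X → K, f ∈ WU K h χ y → act g f ∈ WU K h χ y) ∧
    (∀ f : Submodule F X → K, f ∈ WU K h χ y → f ∈ supS R K S → (∀ w ∈ B₀, f w = 0) → f = 0)) →
  (∀ y ∈ pp B Y p p', (∀ f : Submodule F X → K, f ∈ WU K h χ y → f ∈ supS R K S → f = 0) ∨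
    ∃ i, ∃ y₀ ∈ T i, ∃ g ∈ H, g⁻¹ ∈ H ∧ ∀ f : Submodule F X → K, f ∈ WU K h χ y → act g⁻¹ f ∈ WU K h χ y₀) →
  ∀ r, (steps (fun i => N i ⊓ IT R K B p) r).card ≤ ∑ i, (T i).card * n i

/-- MODULE STB (150 lines; theorem hStb (hG : StGrp B) (hW : StWit B) (hH : StHyp B) (hT : StTyp B) (hWt : StWts R K B χ) (hV : StVan R K B χ) (hC : StClf R K B χ) : StStb R K B).
Second stage. Model: `OG.through`, `OG.stageB`. Additional remark: a function supported on subsets of `y`-orthogonal space is `Tg B y`-invariant (`Tg` fixes `x` with `f(x,y) = 0`),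
so `N i ⊓ IT R K B y = N i` and `StClf` bounds the steps of `N`. -/
def StStb (B : HForm σ X) : Prop := ∀ m, IH R K B m → ∀ Z y y', ND B Z → HP B Z y y' → finrank F Z < m → ∀ j,
  Bd R K (GrF B Z y) {A | A ∈ Sk B Z j ∧ y ∉ A ∧ ∀ a ∈ A, B.f a y = 0} (3 ^ (finrank F Z - 2) + 3 ^ (finrank F Z - 4))

/-- MODULE STA (80 lines; theorem hSta (hG : StGrp B) (hH : StHyp B) (hT : StTyp B) (hB : StStb R K B) : StSta R K B). First stage for an isotropic weight `y`.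
Model: `OG.through`, `OG.stageA`. -/
def StSta (B : HForm σ X) : Prop := ∀ m, IH R K B m → ∀ Z y, ND B Z → y ∈ Z → y ≠ 0 → B.f y y = 0 → finrank F Z < m → ∀ j p',
  (∀ g ∈ Gr B Z, g p' = p') →
  Bd R K (GrF B Z y) ({A | A ∈ Sk B Z j ∧ y ∈ A} ∪ jn p' '' {A | A ∈ Sk B Z (j - 1) ∧ ∀ a ∈ A, B.f a y = 0})
    (3 * 3 ^ (finrank F Z - 2) + 3 ^ (finrank F Z - 4))

/-- MODULE STP (230 lines; theorem hStp (hG : StGrp B) (hW : StWit B) (hTo : StTor B) (hH : StHyp B) (hT : StTyp B) (hWt : StWts R K B χ) (hV : StVan R K B χ) (hC : StClf R K B χ)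
(hA : StSta R K B) : StStp R K B). The steps of the `Tg B p`-invariants. Model: `OG.step`.
Proof. `Z = pp B Y p p'`. `StClf` for `H = Gr B Y`, `S = Sk B Y j` with: `T 0 = {0}`, `n 0 = 3 * 3^(m-2)` (`H₀ = Gr B Z`, `B₀ = (jn p '' Sk (j-1) ∪ Sk j) ∪ jn p' '' Sk (j-1)`), `T 1 = {y1}` for one
nonzero isotropic `y1 ∈ Z` if there is one (otherwise empty), `n 1 = 3 * 3^(m-4) + 3^(m-6)` (`hA`, `H₀ = GrF B Z y1`), `T 2 = {y2}` for one `y2 ∈ Z` with `f y2 y2 ≠ 0` if there is one,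
`n 2 = 3^(m-3)` (`H₀ = Gr B (Z ⊓ ker (B.l y2))`, `B₀ = jn p' '' Sk B (Z ⊓ ker (B.l y2)) (j-1)`; these `g` fix `y2`, as `y2` is orthogonal to that space). Every `y ∈ Z` is `0`, or isotropic: `g y = y1` (`hW`), or
`f y y ≠ 0`: then there is `c : F` with `f (c y) (c y) = f y2 y2` (norm surjective: `f y2 y2/f y y` is fixed by `σ`, `UN.QE.fix`, `UN.QE.nrm`), use the torus element `t` with parameter `c` and then `g ∈ Gr B Z` with
`g (c y) = y2`. -/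
def StStp (B : HForm σ X) : Prop := ∀ m, IH R K B m → ∀ Y p p' j, ND B Y → HP B Y p p' → finrank F Y = m →
  ∀ N : ℕ → Submodule R (Submodule F X → K), Ch R (Gr B Y) (Sk B Y j) N → ∀ r,
  (steps (fun i => N i ⊓ IT R K B p) r).card ≤ 3 * 3 ^ (m - 2) + (3 * 3 ^ (m - 4) + 3 ^ (m - 6)) + 3 ^ (m - 3)

/-- MODULE GEN (helper70). -/
def StGen (B : HForm σ X) : Prop := ∀ Y p p' j, ND B Y → HP B Y p p' → 4 ≤ finrank F Y →
  ∀ N : ℕ → Submodule R (Submodule F X → K), Ch R (Gr B Y) (Sk B Y j) N →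
  ∀ i, N i ⊓ IT R K B p = N (i + 1) ⊓ IT R K B p → N i = N (i + 1)

/-- MODULE BAS (helper70). -/
def StBas (B : HForm σ X) : Prop := ∀ Y j, ND B Y → finrank F Y ≤ 3 → Bd R K (Gr B Y) (Sk B Y j) (3 ^ finrank F Y)

/-- MODULE IND (60 lines; theorem hInd [IsDomain R] [ValuationRing R] [IsFractionRing R K] [FiniteDimensional F X] (hH : StHyp B) (hS : StStp R K B) (hG : StGen R K B) (hB : StBas R K B) : StInd R K B). Model: `OG.Bd_main`, `OG.arith`. -/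
def StInd (B : HForm σ X) : Prop := ∀ m, ∀ Y : Submodule F X, finrank F Y = m → ND B Y → ∀ j, Bd R K (Gr B Y) (Sk B Y j) (3 ^ m)

end wts

end GUM
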